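import Pool.Agent.Lib.MP_5ef5ec_co.Lift

/-!
# The arrangement `Shi_2`
-/

namespace Pool.Agent.Lib.MP_5ef5ec_co

open MvPolynomial

section base

variable {K : Type*} [Field K] {ι : Type*} [DecidableEq ι] {c : ι → Fin 3 → K}

theorem good_zero (t : Finset ι) : Good c t 0 := by
  classical
  let δ : MvPolynomial (Fin 3) K →ₗ[MvPolynomial (Fin 3) K]
      (MvPolynomial (Fin 3) K →ₗ[K] MvPolynomial (Fin 3) K) :=
    LinearMap.toSpanSingleton _ _ (loc 0 0 0)
  have hδ : ∀ s g, δ s g = s * C (coeff 0 g) := by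
    intro s g
    rw [LinearMap.toSpanSingleton_apply, LinearMap.smul_apply, loc_zero_eq_eval,
      homogeneousComponent_zero, eval_C, smul_eq_mul]
  have hinj : Function.Injective δ := by
    rw [injective_iff_map_eq_zero]
    intro s hs
    have h1 := LinearMap.congr_fun hs 1
    rw [hδ, coeff_zero_one, C_1, mul_one] at h1
    exact h1
  have hrange : MM (fun i => lin (c i)) t 0 = LinearMap.range δ := by
    ext φ
    constructor
    · rintro ⟨h1, _⟩
      refine ⟨φ 1, LinearMap.ext fun g => ?_⟩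
      rw [hδ, ← h1 g, homogeneousComponent_zero, mul_comm, ← smul_eq_C_mul, ← map_smul]
      congr 1
      rw [smul_eq_C_mul, mul_one]
    · rintro ⟨s, rfl⟩
      refine ⟨fun g => ?_, fun i hi g => ?_⟩
      · rw [hδ, hδ, homogeneousComponent_zero, coeff_zero_C]
      · rw [hδ, ← constantCoeff_eq, map_mul]
        have : constantCoeff (lin (c i)) = 0 := by
          rw [lin, map_sum]
          simp
        rw [this, zero_mul, C_0, mul_zero]
        exact dvd_zero _
  refine ⟨?_, ?_⟩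
  · rw [hrange]
    exact free_range_of_injective δ hinj
  · rw [hrange]
    rintro _ ⟨s, rfl⟩
    refine Submodule.smul_mem _ s (Submodule.subset_span (Or.inr (Or.inr ⟨0, 0, ?_⟩)))
    have : qp c t 0 = 1 := by
      rw [qp]
      refine Finset.prod_eq_one fun i hi => ?_
      exfalso
      apply (Finset.mem_filter.mp hi).2
      simp
    rw [this, one_smul]

theorem good_empty (m : ℕ) : Good c ∅ m := by
  set U : Submodule K (MvPolynomial (Fin 3) K) :=
    LinearMap.range (LinearMap.id - homogeneousComponent m) with hU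
  have hU1 : ∀ g, g - homogeneousComponent m g ∈ U := fun g => ⟨g, rfl⟩
  have hfin := finite_quotient U m hU1
  have hrange : MM (fun i => lin (c i)) ∅ m = LinearMap.range (thetaMap U 1) := by
    ext φ
    rw [mem_range_thetaMap one_ne_zero]
    constructor
    · rintro ⟨h1, _⟩
      refine ⟨fun g => one_dvd _, ?_⟩
      rintro _ ⟨g, rfl⟩
      rw [LinearMap.sub_apply, map_sub, LinearMap.id_apply, h1, sub_self]
    · rintro ⟨_, h2⟩
      refine ⟨fun g => ?_, fun i hi => absurd hi (Finset.notMem_empty i)⟩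
      have := h2 _ (hU1 g)
      rw [map_sub, sub_eq_zero] at this
      exact this.symm
  refine ⟨?_, ?_⟩
  · rw [hrange]
    exact free_range_thetaMap U hfin one_ne_zero
  · rw [hrange]
    refine range_thetaMap_le U hfin 1 _ ?_
    intro l hl
    refine Submodule.subset_span (Or.inl ⟨l, fun g => ?_, by rw [Finset.prod_empty]⟩)
    have := hl _ (hU1 g)
    rw [map_sub, sub_eq_zero] at this
    exact this.symm

end base

/-- The coefficient vectors of the seven planes of `Shi_2`. -/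
def cz : Fin 7 → Fin 3 → ℤ :=
  ![![0, 0, 1], ![1, 0, 0], ![1, 0, -1], ![0, 1, 0], ![0, 1, -1], ![1, -1, 0], ![1, -1, -1]]

/-- Integral scalar product. -/
def dz (a b : Fin 3 → ℤ) : ℤ := a 0 * b 0 + a 1 * b 1 + a 2 * b 2

variable (K : Type*) [Field K] [CharZero K]

/-- The coefficient vectors over `K`. -/
def ck (i : Fin 7) (j : Fin 3) : K := (cz i j : K)

variable {K}

omit [CharZero K] in
theorem sum_cast (a b : Fin 3 → ℤ) : ∑ j, (a j : K) * (b j : K) = ((dz a b : ℤ) : K) := by
  rw [Fin.sum_univ_three, dz]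
  push_cast
  ring

theorem ck_ne_zero (i : Fin 7) : ck K i ≠ 0 := by
  have h : ∀ i : Fin 7, ∃ j, cz i j ≠ 0 := by decide
  obtain ⟨j, hj⟩ := h i
  intro h0
  apply hj
  have : (cz i j : K) = 0 := congrFun h0 j
  exact_mod_cast this

theorem cross_ck_ne_zero {i j : Fin 7} (hij : i ≠ j) : cross (ck K i) (ck K j) ≠ 0 := by
  have h : ∀ i j : Fin 7, i ≠ j → (cz i 1 * cz j 2 - cz i 2 * cz j 1 ≠ 0 ∨
      cz i 2 * cz j 0 - cz i 0 * cz j 2 ≠ 0 ∨ cz i 0 * cz j 1 - cz i 1 * cz j 0 ≠ 0) := by decide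
  intro h0
  have e0 : (cz i 1 : K) * cz j 2 - cz i 2 * cz j 1 = 0 := congrFun h0 0
  have e1 : (cz i 2 : K) * cz j 0 - cz i 0 * cz j 2 = 0 := congrFun h0 1
  have e2 : (cz i 0 : K) * cz j 1 - cz i 1 * cz j 0 = 0 := congrFun h0 2
  rcases h i j hij with h1 | h1 | h1
  · exact h1 (by exact_mod_cast e0)
  · exact h1 (by exact_mod_cast e1)
  · exact h1 (by exact_mod_cast e2)

/-- The points from integral data. -/
theorem exists_points {t : Finset (Fin 7)} {h : Fin 7} {m r : ℕ} (hr : r ≤ m + 2)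
    (p : Fin r → Fin 3 → ℤ) (w : Fin 3 → ℤ) (I : Fin r → Fin 7)
    (ha : ∀ k, dz (cz h) (p k) = 0) (hb : ∀ i ∈ t, ∃ k, dz (cz i) (p k) = 0)
    (hI : ∀ l k, dz (cz (I l)) (p k) = 0 ↔ l = k) (hw : ∀ k, dz w (p k) ≠ 0) :
    Nonempty (Points (ck K) t h m r) := by
  classical
  have hdot : ∀ (i : Fin 7) (k : Fin r), ∑ j, ck K i j * (p k j : K) = ((dz (cz i) (p k) : ℤ) : K) :=
    fun i k => sum_cast _ _
  have hev : ∀ (a : Fin 3 → ℤ) (k : Fin r), eval (fun j => (p k j : K)) (lin fun j => (a j : K)) =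
      ((dz a (p k) : ℤ) : K) := by
    intro a k
    rw [eval_lin, sum_cast]
  set M : Fin r → MvPolynomial (Fin 3) K := fun k =>
    (∏ l ∈ Finset.univ.erase k, lin (fun j => (cz (I l) j : K))) *
      lin (fun j => (w j : K)) ^ (m + 2 - r) with hM
  have hMval : ∀ k l, eval (fun j => (p l j : K)) (M k) =
      (∏ l' ∈ Finset.univ.erase k, ((dz (cz (I l')) (p l) : ℤ) : K)) *
        ((dz w (p l) : ℤ) : K) ^ (m + 2 - r) := by
    intro k l
    rw [hM, map_mul, map_prod, map_pow]
    simp only [hev]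
  have hMkk : ∀ k, eval (fun j => (p k j : K)) (M k) ≠ 0 := by
    intro k
    rw [hMval]
    refine mul_ne_zero (Finset.prod_ne_zero_iff.mpr fun l hl => ?_) (pow_ne_zero _ ?_)
    · rw [Int.cast_ne_zero]
      intro h0
      exact (Finset.ne_of_mem_erase hl) ((hI l k).mp h0)
    · exact Int.cast_ne_zero.mpr (hw k)
  have hMkl : ∀ k l, k ≠ l → eval (fun j => (p l j : K)) (M k) = 0 := by
    intro k l hkl
    rw [hMval, Finset.prod_eq_zero (Finset.mem_erase.mpr ⟨Ne.symm hkl, Finset.mem_univ l⟩),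
      zero_mul]
    rw [(hI l l).mpr rfl, Int.cast_zero]
  refine ⟨{ p := fun k j => (p k j : K), L := fun k => C (eval (fun j => (p k j : K)) (M k))⁻¹ * M k,
            hL := ?_, hLp := ?_, hp0 := ?_, hph := ?_, hcov := ?_ }⟩
  · intro k
    have hcard : (Finset.univ.erase k).card = r - 1 := by
      rw [Finset.card_erase_of_mem (Finset.mem_univ k), Finset.card_univ, Fintype.card_fin]
    have hr1 : 1 ≤ r := k.pos
    have h1 : (M k).IsHomogeneous (r - 1 + (m + 2 - r)) := by
      rw [hM]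
      refine IsHomogeneous.mul ?_ ?_
      · have h2 := IsHomogeneous.prod (Finset.univ.erase k)
          (fun l => lin (fun j => (cz (I l) j : K))) (fun _ => 1)
          (fun l _ => lin_isHomogeneous _)
        rw [Finset.sum_const, hcard, smul_eq_mul, mul_one] at h2
        exact h2
      · have := (lin_isHomogeneous (fun j => (w j : K))).pow (m + 2 - r)
        rwa [one_mul] at this
    have h2 := (isHomogeneous_C (Fin 3) (eval (fun j => (p k j : K)) (M k))⁻¹).mul h1
    have h3 : 0 + (r - 1 + (m + 2 - r)) = m + 1 := by omega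
    rwa [h3] at h2
  · intro k l
    rw [map_mul, eval_C]
    by_cases hkl : k = l
    · subst hkl
      rw [if_pos rfl, inv_mul_cancel₀ (hMkk k)]
    · rw [if_neg hkl, hMkl k l hkl, mul_zero]
  · intro k h0
    apply hw k
    have h1 : ∀ j, p k j = 0 := fun j => by
      have : (p k j : K) = 0 := congrFun h0 j
      exact_mod_cast this
    rw [dz, h1, h1, h1]
    ring
  · intro k
    rw [hdot, ha, Int.cast_zero]
  · intro i hi
    obtain ⟨k, hk⟩ := hb i hi
    exact ⟨k, by rw [hdot, hk, Int.cast_zero]⟩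

theorem good_step {t : Finset (Fin 7)} {h : Fin 7} {m r : ℕ} (ht : h ∉ t) (hr : r ≤ m + 2)
    (p : Fin r → Fin 3 → ℤ) (I : Fin r → Fin 7)
    (ha : ∀ k, dz (cz h) (p k) = 0) (hb : ∀ i ∈ t, ∃ k, dz (cz i) (p k) = 0)
    (hI : ∀ l k, dz (cz (I l)) (p k) = 0 ↔ l = k) (hw : ∀ k, dz ![1, 10, 100] (p k) ≠ 0)
    (hg : Good (ck K) t m) : Good (ck K) (insert h t) (m + 1) := by
  obtain ⟨P⟩ := exists_points (K := K) (m := m) hr p ![1, 10, 100] I ha hb hI hw
  refine good_insert ht (ck_ne_zero h) (fun j hj => ?_) (fun i _ j _ hij => cross_ck_ne_zero hij)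
    P hg
  have hjh : j ≠ h := by
    rintro rfl
    exact ht hj
  exact ⟨ck_ne_zero j, cross_ck_ne_zero hjh, cross_ck_ne_zero hjh.symm⟩

theorem good1 (m : ℕ) : Good (ck K) {0} m := by
  rcases m with _ | m
  · exact good_zero _
  · exact good_step (t := ∅) (h := 0) (r := 0) (by decide) (by omega) ![] ![] (by decide)
      (by decide) (by decide) (by decide) (good_empty m)

theorem good2 (m : ℕ) : Good (ck K) {1, 0} m := by
  rcases m with _ | m
  · exact good_zero _
  · exact good_step (t := {0}) (h := 1) (r := 1) (by decide) (by omega) ![![0, 1, 0]] ![0]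
      (by decide) (by decide) (by decide) (by decide) (good1 m)

theorem good3 (m : ℕ) : Good (ck K) {3, 1, 0} m := by
  rcases m with _ | m
  · exact good_zero _
  · exact good_step (t := {1, 0}) (h := 3) (r := 2) (by decide) (by omega)
      ![![0, 0, 1], ![1, 0, 0]] ![1, 0] (by decide) (by decide) (by decide) (by decide) (good2 m)

theorem good4 (m : ℕ) : Good (ck K) {2, 3, 1, 0} m := by
  rcases m with _ | m
  · exact good_zero _
  · exact good_step (t := {3, 1, 0}) (h := 2) (r := 2) (by decide) (by omega)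
      ![![0, 1, 0], ![1, 0, 1]] ![0, 3] (by decide) (by decide) (by decide) (by decide) (good3 m)

theorem good5 (m : ℕ) : Good (ck K) {4, 2, 3, 1, 0} (m + 2) :=
  good_step (t := {2, 3, 1, 0}) (h := 4) (r := 3) (by decide) (by omega)
      ![![0, 1, 1], ![1, 0, 0], ![1, 1, 1]] ![1, 0, 2]
      (by decide) (by decide) (by decide) (by decide) (good4 (m + 1))

theorem good6 (m : ℕ) : Good (ck K) {5, 4, 2, 3, 1, 0} (m + 3) :=
  good_step (t := {4, 2, 3, 1, 0}) (h := 5) (r := 3) (by decide) (by omega)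
      ![![0, 0, 1], ![1, 1, 0], ![1, 1, 1]] ![1, 0, 2]
      (by decide) (by decide) (by decide) (by decide) (good5 (m + 1 - 1 + 0))

theorem good7 (m : ℕ) : Good (ck K) {6, 5, 4, 2, 3, 1, 0} (m + 4) :=
  good_step (t := {5, 4, 2, 3, 1, 0}) (h := 6) (r := 4) (by decide) (by omega)
      ![![0, 1, -1], ![1, 0, 1], ![1, 1, 0], ![2, 1, 1]] ![1, 3, 0, 4]
      (by decide) (by decide) (by decide) (by decide) (good6 m)

theorem good5' : Good (ck K) {2, 6, 3, 1, 0} 1 :=
  good_step (t := {6, 3, 1, 0}) (h := 2) (r := 2) (by decide) (by omega)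
      ![![0, 1, 0], ![1, 0, 1]] ![0, 3]
      (by decide) (by decide) (by decide) (by decide) (good_zero _)

theorem good6' : Good (ck K) {5, 2, 6, 3, 1, 0} 2 :=
  good_step (t := {2, 6, 3, 1, 0}) (h := 5) (r := 3) (by decide) (by omega)
      ![![0, 0, 1], ![1, 1, 0], ![1, 1, 1]] ![1, 0, 2]
      (by decide) (by decide) (by decide) (by decide) good5'

theorem good7' : Good (ck K) {4, 5, 2, 6, 3, 1, 0} 3 :=
  good_step (t := {5, 2, 6, 3, 1, 0}) (h := 4) (r := 4) (by decide) (by omega)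
      ![![0, 1, 1], ![1, 0, 0], ![1, 1, 1], ![2, 1, 1]] ![1, 0, 2, 6]
      (by decide) (by decide) (by decide) (by decide) good6'

theorem good_univ {m : ℕ} (hm : 3 ≤ m) : Good (ck K) Finset.univ m := by
  have h1 : ({6, 5, 4, 2, 3, 1, 0} : Finset (Fin 7)) = Finset.univ := by decide
  have h2 : ({4, 5, 2, 6, 3, 1, 0} : Finset (Fin 7)) = Finset.univ := by decide
  rcases Nat.lt_or_ge m 4 with h | h
  · have h3 : m = 3 := by omega
    subst h3
    rw [← h2]
    exact good7'
  · obtain ⟨k, rfl⟩ := Nat.exists_eq_add_of_le h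
    rw [← h1, add_comm]
    exact good7 k

omit [CharZero K] in
theorem lin_ck (i : Fin 7) : lin (ck K i) =
    C (cz i 0 : K) * X 0 + C (cz i 1 : K) * X 1 + C (cz i 2 : K) * X 2 := by
  rw [lin, Fin.sum_univ_three]
  rfl

omit [CharZero K] in
theorem shiQ_two : shiQ K 2 = ∏ i : Fin 7, lin (ck K i) := by
  have h0 : Finset.Ioi (0 : Fin 2) = {1} := by decide
  have h1 : Finset.Ioi (1 : Fin 2) = ∅ := by decide
  rw [shiQ, Fin.prod_univ_two, Fin.prod_univ_two, h0, h1, Finset.prod_empty,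
    Finset.prod_singleton, Fin.prod_univ_seven]
  simp only [lin_ck]
  have hX2 : (X (Fin.last 2) : MvPolynomial (Fin 3) K) = X 2 := rfl
  have hX0 : (X (Fin.castSucc (0 : Fin 2)) : MvPolynomial (Fin 3) K) = X 0 := rfl
  have hX1 : (X (Fin.castSucc (1 : Fin 2)) : MvPolynomial (Fin 3) K) = X 1 := rfl
  rw [hX0, hX1, hX2]
  simp [cz]
  ring

/-- `Shi_2` is `m`-free for all `m ≥ 3`. -/
theorem isMFree_shi_two {m : ℕ} (hm : 3 ≤ m) : IsMFree (shiQ K 2) m := by
  rw [IsMFree, shiQ_two]
  exact free_logOps_of_free_MM (c := ck K) (fun i _ => prime_lin (ck_ne_zero i))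
    (fun i _ j _ hij => lin_not_dvd (cross_ck_ne_zero hij)) (good_univ hm).1

end Pool.Agent.Lib.MP_5ef5ec_co
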