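import Mathlib

/-!
# Modules of homogeneous differential operators of a hyperplane arrangement
-/

namespace Pool.Agent.Lib.MP_5ef5ec_co

open MvPolynomial

/-- The partial derivative `∂_i` as a `K`-linear endomorphism of `K[x_0, …, x_{n-1}]`. -/
noncomputable def pd (K : Type*) [Field K] {n : ℕ} (i : Fin n) :
    Module.End K (MvPolynomial (Fin n) K) :=
  (pderiv i : Derivation K (MvPolynomial (Fin n) K) (MvPolynomial (Fin n) K)).toLinearMap

/-- The operator `∂^a = ∂_0^{a_0} ⋯ ∂_{n-1}^{a_{n-1}}`. -/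
noncomputable def dpow (K : Type*) [Field K] {n : ℕ} (a : Fin n → ℕ) :
    Module.End K (MvPolynomial (Fin n) K) :=
  ((List.finRange n).map fun i => pd K i ^ a i).prod

/-- `D^{(m)}(S) = ⊕_{|a| = m} S ∂^a`, as an `S`-submodule of `End_K(S)`, where
`S = K[x_0, …, x_{n-1}]` acts by left multiplication. -/
noncomputable def ops (K : Type*) [Field K] (n m : ℕ) :
    Submodule (MvPolynomial (Fin n) K)
      (MvPolynomial (Fin n) K →ₗ[K] MvPolynomial (Fin n) K) :=
  Submodule.span (MvPolynomial (Fin n) K) {θ | ∃ a : Fin n → ℕ, ∑ i, a i = m ∧ θ = dpow K a}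

/-- `D^{(m)}(𝒜) = {θ ∈ D^{(m)}(S) : θ(QS) ⊆ QS}`, where `Q` is the defining polynomial of `𝒜`. -/
noncomputable def logOps {K : Type*} [Field K] {n : ℕ} (Q : MvPolynomial (Fin n) K) (m : ℕ) :
    Submodule (MvPolynomial (Fin n) K)
      (MvPolynomial (Fin n) K →ₗ[K] MvPolynomial (Fin n) K) where
  carrier := {θ | θ ∈ ops K n m ∧ ∀ f, Q ∣ θ (Q * f)}
  zero_mem' := ⟨zero_mem _, fun f => by simp⟩
  add_mem' := by
    rintro θ θ' ⟨h1, h2⟩ ⟨h1', h2'⟩
    exact ⟨add_mem h1 h1', fun f => by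
      rw [LinearMap.add_apply]
      exact dvd_add (h2 f) (h2' f)⟩
  smul_mem' := by
    rintro s θ ⟨h1, h2⟩
    exact ⟨Submodule.smul_mem _ s h1, fun f => by
      rw [LinearMap.smul_apply, smul_eq_mul]
      exact Dvd.dvd.mul_left (h2 f) s⟩

/-- The arrangement with defining polynomial `Q` is `m`-free. -/
def IsMFree {K : Type*} [Field K] {n : ℕ} (Q : MvPolynomial (Fin n) K) (m : ℕ) : Prop :=
  Module.Free (MvPolynomial (Fin n) K) (logOps Q m)

/-- The defining polynomial of `Shi_ℓ` in the variables `x_i = X i.castSucc` (`i : Fin ℓ`) and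
`z = X (Fin.last ℓ)`. -/
noncomputable def shiQ (K : Type*) [Field K] (ℓ : ℕ) : MvPolynomial (Fin (ℓ + 1)) K :=
  X (Fin.last ℓ) * (∏ i : Fin ℓ, X i.castSucc * (X i.castSucc - X (Fin.last ℓ))) *
    ∏ i : Fin ℓ, ∏ j ∈ Finset.Ioi i,
      (X i.castSucc - X j.castSucc) * (X i.castSucc - X j.castSucc - X (Fin.last ℓ))

end Pool.Agent.Lib.MP_5ef5ec_co
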