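import Pool.Agent.Lib.MP_5ef5ec_co.Lin

/-!
# Freeness lemmas
-/

namespace Pool.Agent.Lib.MP_5ef5ec_co

open MvPolynomial

section general

variable {R : Type*} [CommRing R]

theorem free_of_surjective {M N : Type*} [AddCommGroup M] [Module R M] [AddCommGroup N]
    [Module R N] (f : M →ₗ[R] N) (hf : Function.Surjective f) (hN : Module.Free R N)
    (hk : Module.Free R (LinearMap.ker f)) : Module.Free R M := by
  obtain ⟨g, hg⟩ := Module.projective_lifting_property f (LinearMap.id : N →ₗ[R] N) hf
  have hg' : ∀ y, f (g y) = y := fun y => LinearMap.congr_fun hg y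
  let e : (LinearMap.ker f × N) →ₗ[R] M := LinearMap.coprod (LinearMap.ker f).subtype g
  have he : ∀ k y, e (k, y) = (k : M) + g y := fun k y => by
    rw [LinearMap.coprod_apply]
    rfl
  have hbij : Function.Bijective e := by
    constructor
    · rw [injective_iff_map_eq_zero]
      rintro ⟨⟨k, hk⟩, y⟩ h0
      rw [he] at h0
      have h1 : f (k + g y) = 0 := by
        rw [show k + g y = 0 from h0, map_zero]
      rw [map_add, LinearMap.mem_ker.mp hk, zero_add, hg'] at h1
      subst h1
      rw [map_zero, add_zero] at h0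
      have h2 : k = 0 := h0
      subst h2
      rfl
    · intro x
      refine ⟨(⟨x - g (f x), ?_⟩, f x), ?_⟩
      · rw [LinearMap.mem_ker, map_sub, hg', sub_self]
      · rw [he]
        exact sub_add_cancel _ _
  exact Module.Free.of_equiv (LinearEquiv.ofBijective e hbij)

theorem free_ext {E E' : Type*} [AddCommGroup E] [Module R E] [AddCommGroup E'] [Module R E']
    (M : Submodule R E) (f : E →ₗ[R] E') (h1 : Module.Free R (M.map f))
    (h2 : Module.Free R (M ⊓ LinearMap.ker f : Submodule R E)) : Module.Free R M := by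
  let g : M →ₗ[R] M.map f := (f.domRestrict M).codRestrict (M.map f)
    (fun x => ⟨x, x.2, rfl⟩)
  refine free_of_surjective g ?_ h1 ?_
  · rintro ⟨_, x, hx, rfl⟩
    exact ⟨⟨x, hx⟩, rfl⟩
  · have h3 : LinearMap.ker g = (M ⊓ LinearMap.ker f).comap M.subtype := by
      ext ⟨x, hx⟩
      rw [LinearMap.mem_ker, Submodule.mem_comap, Submodule.mem_inf, LinearMap.mem_ker]
      constructor
      · intro h
        exact ⟨hx, congrArg Subtype.val h⟩
      · rintro ⟨_, h⟩
        exact Subtype.ext h
    rw [h3]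
    exact Module.Free.of_equiv (Submodule.comapSubtypeEquivOfLe inf_le_left).symm

theorem free_range_of_injective {E E' : Type*} [AddCommGroup E] [Module R E] [AddCommGroup E']
    [Module R E'] [Module.Free R E] (f : E →ₗ[R] E') (hf : Function.Injective f) :
    Module.Free R (LinearMap.range f) :=
  Module.Free.of_equiv (LinearEquiv.ofInjective f hf)

theorem free_map_of_injective {E E' : Type*} [AddCommGroup E] [Module R E] [AddCommGroup E']
    [Module R E'] (M : Submodule R E) (h : Module.Free R M) (f : E →ₗ[R] E')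
    (hf : Function.Injective f) : Module.Free R (M.map f) :=
  Module.Free.of_equiv (Submodule.equivMapOfInjective f hf M)

end general

variable {K : Type*} [Field K] {n : ℕ}

/-- Division of a linear map by a nonzero polynomial. -/
theorem exists_div {V : Type*} [AddCommGroup V] [Module K V] {q : MvPolynomial (Fin n) K}
    (hq : q ≠ 0) (χ : V →ₗ[K] MvPolynomial (Fin n) K)
    (h : ∀ g, q ∣ χ g) : ∃ ψ : V →ₗ[K] MvPolynomial (Fin n) K, ∀ g, χ g = q * ψ g := by
  choose ψ hψ using h
  refine ⟨{ toFun := ψ, map_add' := fun x y => ?_, map_smul' := fun r x => ?_ }, hψ⟩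
  · apply mul_left_cancel₀ hq
    rw [← hψ, map_add, hψ x, hψ y, mul_add]
  · apply mul_left_cancel₀ hq
    rw [← hψ, map_smul, hψ x, RingHom.id_apply, mul_smul_comm]

/-- The maps `q χ`, where `χ` vanishes on the subspace `U`. -/
noncomputable def thetaMap (U : Submodule K (MvPolynomial (Fin n) K))
    (q : MvPolynomial (Fin n) K) :
    ((MvPolynomial (Fin n) K ⧸ U) →ₗ[K] MvPolynomial (Fin n) K) →ₗ[MvPolynomial (Fin n) K]
      (MvPolynomial (Fin n) K →ₗ[K] MvPolynomial (Fin n) K) where
  toFun χ := q • (χ ∘ₗ U.mkQ)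
  map_add' χ χ' := by
    rw [LinearMap.add_comp, smul_add]
  map_smul' s χ := by
    refine LinearMap.ext fun g => ?_
    simp only [LinearMap.smul_apply, LinearMap.comp_apply, smul_eq_mul, RingHom.id_apply]
    ring

theorem thetaMap_apply (U : Submodule K (MvPolynomial (Fin n) K)) (q : MvPolynomial (Fin n) K)
    (χ : (MvPolynomial (Fin n) K ⧸ U) →ₗ[K] MvPolynomial (Fin n) K) (g : MvPolynomial (Fin n) K) :
    thetaMap U q χ g = q * χ (U.mkQ g) := rfl

theorem thetaMap_injective (U : Submodule K (MvPolynomial (Fin n) K))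
    {q : MvPolynomial (Fin n) K} (hq : q ≠ 0) : Function.Injective (thetaMap U q) := by
  rw [injective_iff_map_eq_zero]
  intro χ h
  refine LinearMap.ext fun x => ?_
  obtain ⟨g, rfl⟩ := U.mkQ_surjective x
  have h1 := LinearMap.congr_fun h g
  rw [thetaMap_apply, LinearMap.zero_apply] at h1
  exact (mul_eq_zero.mp h1).resolve_left hq

theorem mem_range_thetaMap {U : Submodule K (MvPolynomial (Fin n) K)}
    {q : MvPolynomial (Fin n) K} (hq : q ≠ 0)
    {φ : MvPolynomial (Fin n) K →ₗ[K] MvPolynomial (Fin n) K} :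
    φ ∈ LinearMap.range (thetaMap U q) ↔ (∀ g, q ∣ φ g) ∧ ∀ u ∈ U, φ u = 0 := by
  constructor
  · rintro ⟨χ, rfl⟩
    refine ⟨fun g => Dvd.intro _ (thetaMap_apply U q χ g).symm, fun u hu => ?_⟩
    rw [thetaMap_apply, Submodule.mkQ_apply, (Submodule.Quotient.mk_eq_zero U).mpr hu, map_zero,
      mul_zero]
  · rintro ⟨h1, h2⟩
    obtain ⟨χ, hχ⟩ := exists_div hq φ h1
    have h3 : U ≤ LinearMap.ker χ := by
      intro u hu
      rw [LinearMap.mem_ker]
      have h4 := h2 u hu
      rw [hχ] at h4
      exact (mul_eq_zero.mp h4).resolve_left hq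
    refine ⟨U.liftQ χ h3, LinearMap.ext fun g => ?_⟩
    rw [thetaMap_apply, Submodule.mkQ_apply, Submodule.liftQ_apply, hχ]

theorem free_range_thetaMap (U : Submodule K (MvPolynomial (Fin n) K))
    (hU : Module.Finite K (MvPolynomial (Fin n) K ⧸ U)) {q : MvPolynomial (Fin n) K}
    (hq : q ≠ 0) : Module.Free (MvPolynomial (Fin n) K) (LinearMap.range (thetaMap U q)) :=
  free_range_of_injective _ (thetaMap_injective U hq)

/-- The range of `thetaMap` is generated by scalar functionals times `q`. -/
theorem range_thetaMap_le (U : Submodule K (MvPolynomial (Fin n) K))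
    (hU : Module.Finite K (MvPolynomial (Fin n) K ⧸ U)) (q : MvPolynomial (Fin n) K)
    (G : Submodule (MvPolynomial (Fin n) K)
      (MvPolynomial (Fin n) K →ₗ[K] MvPolynomial (Fin n) K))
    (hG : ∀ l : MvPolynomial (Fin n) K →ₗ[K] K, (∀ u ∈ U, l u = 0) → l.smulRight q ∈ G) :
    LinearMap.range (thetaMap U q) ≤ G := by
  rintro _ ⟨χ, rfl⟩
  let b := Module.Free.chooseBasis K (MvPolynomial (Fin n) K ⧸ U)
  have h1 : thetaMap U q χ = ∑ j, χ (b j) • ((b.coord j ∘ₗ U.mkQ).smulRight q) := by
    refine LinearMap.ext fun g => ?_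
    rw [thetaMap_apply, LinearMap.sum_apply]
    conv_lhs => rw [← b.sum_repr (U.mkQ g), map_sum, Finset.mul_sum]
    refine Finset.sum_congr rfl fun j _ => ?_
    rw [map_smul, LinearMap.smul_apply, LinearMap.smulRight_apply, LinearMap.comp_apply,
      Module.Basis.coord_apply, smul_eq_mul, mul_smul_comm, mul_smul_comm, mul_comm q]
  rw [h1]
  refine sum_mem fun j _ => Submodule.smul_mem _ _ (hG _ ?_)
  intro u hu
  rw [LinearMap.comp_apply, Submodule.mkQ_apply, (Submodule.Quotient.mk_eq_zero U).mpr hu,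
    map_zero]

/-- Quotients by subspaces containing all `g - g_m` are finite dimensional. -/
theorem finite_quotient (U : Submodule K (MvPolynomial (Fin n) K)) (m : ℕ)
    (hU : ∀ g, g - homogeneousComponent m g ∈ U) :
    Module.Finite K (MvPolynomial (Fin n) K ⧸ U) := by
  classical
  refine ⟨⟨(Finset.piAntidiag (Finset.univ : Finset (Fin n)) m).image
    fun a => U.mkQ (monomial (ex a) 1), ?_⟩⟩
  rw [eq_top_iff]
  rintro x -
  obtain ⟨g, rfl⟩ := U.mkQ_surjective x
  have h1 : U.mkQ g = U.mkQ (homogeneousComponent m g) := by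
    rw [← sub_eq_zero, ← map_sub, Submodule.mkQ_apply, Submodule.Quotient.mk_eq_zero]
    exact hU g
  rw [h1]
  have h2 : (homogeneousComponent m g).IsHomogeneous m := homogeneousComponent_isHomogeneous m g
  generalize homogeneousComponent m g = h at h2
  rw [h.as_sum, map_sum]
  refine sum_mem fun s hs => ?_
  have h3 : monomial s (coeff s h) = (coeff s h) • monomial (ex fun i => s i) (1 : K) := by
    have : ex (fun i => s i) = s := by
      ext i
      rfl
    rw [this, smul_monomial, smul_eq_mul, mul_one]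
  rw [h3, map_smul]
  refine Submodule.smul_mem _ _ (Submodule.subset_span ?_)
  rw [Finset.coe_image, Set.mem_image]
  refine ⟨fun i => s i, ?_, rfl⟩
  rw [Finset.mem_coe, Finset.mem_piAntidiag]
  refine ⟨?_, fun i _ => Finset.mem_univ i⟩
  have h4 := h2 (mem_support_iff.mp hs)
  have h5 : (Finsupp.weight (1 : Fin n → ℕ)) s = s.degree := by
    rw [Finsupp.degree_eq_weight_one]
    rfl
  rw [← h4, h5, Finsupp.degree_eq_sum]

end Pool.Agent.Lib.MP_5ef5ec_co
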