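import Pool.Agent.Lib.MP_5ef5ec_co.Step

/-!
# Adding a hyperplane: lifting, and the main step
-/

namespace Pool.Agent.Lib.MP_5ef5ec_co

open MvPolynomial

variable {K : Type*} [Field K] {ι : Type*} [DecidableEq ι] {c : ι → Fin 3 → K}

theorem exists_lift_functional {n m : ℕ} {a q : MvPolynomial (Fin n) K}
    (l : MvPolynomial (Fin n) K →ₗ[K] K) (hl : ∀ g, l (homogeneousComponent m g) = l g)
    (hlq : ∀ g, l (q * g) = 0)
    (ha : ∀ g, homogeneousComponent (m + 1) (a * g) = a * homogeneousComponent m g)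
    (hq : ∀ g, q ∣ a * g → q ∣ g) (hq2 : ∀ g, q ∣ homogeneousComponent (m + 1) (q * g)) :
    ∃ l' : MvPolynomial (Fin n) K →ₗ[K] K, (∀ g, l' (homogeneousComponent (m + 1) g) = l' g) ∧
      (∀ g, l' (q * g) = 0) ∧ ∀ g, l' (a * g) = l g := by
  set U : Submodule K (MvPolynomial (Fin n) K) := LinearMap.range (LinearMap.mulLeft K q) with hU
  have hUmem : ∀ g, g ∈ U ↔ q ∣ g := by
    intro g
    rw [hU, LinearMap.mem_range]
    constructor
    · rintro ⟨y, rfl⟩
      exact Dvd.intro _ rfl
    · rintro ⟨y, rfl⟩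
      exact ⟨y, rfl⟩
  have h1 : U ≤ U.comap (LinearMap.mulLeft K a) := by
    intro g hg
    rw [Submodule.mem_comap, LinearMap.mulLeft_apply, hUmem]
    exact Dvd.dvd.mul_left ((hUmem g).mp hg) a
  have hker : LinearMap.ker (U.mapQ U (LinearMap.mulLeft K a) h1) = ⊥ := by
    rw [LinearMap.ker_eq_bot']
    intro x hx
    obtain ⟨g, rfl⟩ := U.mkQ_surjective x
    rw [Submodule.mkQ_apply, Submodule.mapQ_apply, Submodule.Quotient.mk_eq_zero,
      LinearMap.mulLeft_apply, hUmem] at hx
    rw [Submodule.mkQ_apply, Submodule.Quotient.mk_eq_zero, hUmem]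
    exact hq g hx
  obtain ⟨r, hr⟩ := LinearMap.exists_leftInverse_of_injective _ hker
  have h2 : U ≤ LinearMap.ker l := by
    intro g hg
    obtain ⟨y, rfl⟩ := (hUmem g).mp hg
    exact hlq y
  refine ⟨U.liftQ l h2 ∘ₗ r ∘ₗ U.mkQ ∘ₗ homogeneousComponent (m + 1), fun g => ?_, fun g => ?_,
    fun g => ?_⟩
  · simp only [LinearMap.comp_apply, hc_hc]
  · simp only [LinearMap.comp_apply]
    have h3 : U.mkQ (homogeneousComponent (m + 1) (q * g)) = 0 := by
      rw [Submodule.mkQ_apply, Submodule.Quotient.mk_eq_zero, hUmem]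
      exact hq2 g
    rw [h3, map_zero, map_zero]
  · simp only [LinearMap.comp_apply]
    have h3 : U.mkQ (homogeneousComponent (m + 1) (a * g)) =
        U.mapQ U (LinearMap.mulLeft K a) h1 (U.mkQ (homogeneousComponent m g)) := by
      rw [ha]
      rfl
    have h4 := LinearMap.congr_fun hr (U.mkQ (homogeneousComponent m g))
    rw [LinearMap.comp_apply, LinearMap.id_apply] at h4
    rw [h3, h4, Submodule.mkQ_apply, Submodule.liftQ_apply, hl]

theorem qp_insert_of_eq {t : Finset ι} {h : ι} {p : Fin 3 → K} (h0 : ∑ j, c h j * p j = 0) :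
    qp c (insert h t) p = qp c t p := by
  classical
  rw [qp, qp, Finset.filter_insert, if_neg (not_not.mpr h0)]

theorem qp_insert_of_ne {t : Finset ι} {h : ι} (ht : h ∉ t) {p : Fin 3 → K}
    (h0 : ∑ j, c h j * p j ≠ 0) : qp c (insert h t) p = lin (c h) * qp c t p := by
  classical
  rw [qp, qp, Finset.filter_insert, if_pos h0, Finset.prod_insert]
  intro h1
  exact ht (Finset.mem_of_mem_filter _ h1)

theorem exists_lift {t : Finset ι} {h : ι} (ht : h ∉ t) (hc : c h ≠ 0)
    (hd : ∀ j ∈ t, c j ≠ 0 ∧ ¬ lin (c j) ∣ lin (c h)) {m : ℕ}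
    {ψ : MvPolynomial (Fin 3) K →ₗ[K] MvPolynomial (Fin 3) K} (hψ : ψ ∈ GG c t m) :
    ∃ φ ∈ GG c (insert h t) (m + 1), ∀ g, φ (lin (c h) * g) = lin (c h) * ψ g := by
  refine Submodule.span_induction (p := fun ψ _ => ∃ φ ∈ GG c (insert h t) (m + 1),
    ∀ g, φ (lin (c h) * g) = lin (c h) * ψ g) ?_ ?_ ?_ ?_ hψ
  · rintro ψ (⟨l, h1, rfl⟩ | ⟨j, hj, l, h1, h2, rfl⟩ | ⟨p, k, rfl⟩)
    · obtain ⟨l', h3, _, h5⟩ := exists_lift_functional (a := lin (c h)) (q := 0) l h1
        (fun g => by rw [zero_mul, map_zero]) (fun g => hc_lin_mul (c h) m g)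
        (fun g hg => by
          rw [zero_dvd_iff] at hg ⊢
          exact (mul_eq_zero.mp hg).resolve_left (lin_ne_zero hc))
        (fun g => by rw [zero_mul, map_zero])
      refine ⟨l'.smulRight (∏ i ∈ insert h t, lin (c i)),
        Submodule.subset_span (Or.inl ⟨l', h3, rfl⟩), fun g => ?_⟩
      rw [LinearMap.smulRight_apply, h5, Finset.prod_insert ht, LinearMap.smulRight_apply,
        mul_smul_comm]
    · obtain ⟨l', h3, h4, h5⟩ := exists_lift_functional (a := lin (c h)) (q := lin (c j)) l h1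
        h2 (fun g => hc_lin_mul (c h) m g)
        (fun g hg => ((prime_lin (hd j hj).1).dvd_or_dvd hg).resolve_left (hd j hj).2)
        (fun g => by
          rw [hc_lin_mul]
          exact Dvd.intro _ rfl)
      have hjh : j ≠ h := by
        rintro rfl
        exact ht hj
      refine ⟨l'.smulRight (∏ i ∈ (insert h t).erase j, lin (c i)),
        Submodule.subset_span (Or.inr (Or.inl ⟨j, Finset.mem_insert_of_mem hj, l', h3, h4, rfl⟩)),
        fun g => ?_⟩
      rw [LinearMap.smulRight_apply, h5, Finset.erase_insert_of_ne hjh.symm,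
        Finset.prod_insert (fun h6 => ht (Finset.mem_of_mem_erase h6)),
        LinearMap.smulRight_apply, mul_smul_comm]
    · by_cases h0 : ∑ j, c h j * p j = 0
      · refine ⟨qp c (insert h t) p • loc p (k + 1) (m + 1),
          Submodule.subset_span (Or.inr (Or.inr ⟨p, k + 1, rfl⟩)), fun g => ?_⟩
        rw [LinearMap.smul_apply, loc_lin_mul_succ, h0, C_0, zero_mul, zero_add,
          qp_insert_of_eq h0, LinearMap.smul_apply, smul_eq_mul, smul_eq_mul]
        ring
      · have hCC : (C (∑ j, c h j * p j)⁻¹ * C (∑ j, c h j * p j) :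
            MvPolynomial (Fin 3) K) = 1 := by
          rw [← C_mul, inv_mul_cancel₀ h0, C_1]
        induction k with
        | zero =>
          refine ⟨(C (∑ j, c h j * p j)⁻¹ : MvPolynomial (Fin 3) K) •
            (qp c (insert h t) p • loc p 0 (m + 1)), Submodule.smul_mem _ _
              (Submodule.subset_span (Or.inr (Or.inr ⟨p, 0, rfl⟩))), fun g => ?_⟩
          rw [LinearMap.smul_apply, LinearMap.smul_apply, loc_lin_mul_zero,
            qp_insert_of_ne ht h0, LinearMap.smul_apply, smul_eq_mul, smul_eq_mul, smul_eq_mul]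
          linear_combination (lin (c h) * qp c t p * loc p 0 m g) * hCC
        | succ k ih =>
          obtain ⟨φ, hφ, h1⟩ := ih
          refine ⟨(C (∑ j, c h j * p j)⁻¹ : MvPolynomial (Fin 3) K) •
            (qp c (insert h t) p • loc p (k + 1) (m + 1) - lin (c h) • φ),
            Submodule.smul_mem _ _ (sub_mem (Submodule.subset_span
              (Or.inr (Or.inr ⟨p, k + 1, rfl⟩))) (Submodule.smul_mem _ _ hφ)), fun g => ?_⟩
          rw [LinearMap.smul_apply, LinearMap.sub_apply, LinearMap.smul_apply,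
            LinearMap.smul_apply, loc_lin_mul_succ, h1,
            qp_insert_of_ne ht h0, LinearMap.smul_apply, LinearMap.smul_apply]
          simp only [smul_eq_mul]
          linear_combination (lin (c h) * qp c t p * loc p (k + 1) m g) * hCC
  · exact ⟨0, zero_mem _, fun g => by simp⟩
  · rintro ψ ψ' _ _ ⟨φ, hφ, h1⟩ ⟨φ', hφ', h1'⟩
    exact ⟨φ + φ', add_mem hφ hφ', fun g => by
      rw [LinearMap.add_apply, h1, h1', LinearMap.add_apply, mul_add]⟩
  · rintro s ψ _ ⟨φ, hφ, h1⟩
    exact ⟨s • φ, Submodule.smul_mem _ _ hφ, fun g => by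
      rw [LinearMap.smul_apply, h1, LinearMap.smul_apply, smul_eq_mul, smul_eq_mul]
      ring⟩

/-- Precomposition with multiplication by a polynomial. -/
noncomputable def preMul (a : MvPolynomial (Fin 3) K) :
    (MvPolynomial (Fin 3) K →ₗ[K] MvPolynomial (Fin 3) K) →ₗ[MvPolynomial (Fin 3) K]
      (MvPolynomial (Fin 3) K →ₗ[K] MvPolynomial (Fin 3) K) where
  toFun φ := φ ∘ₗ LinearMap.mulLeft K a
  map_add' _ _ := rfl
  map_smul' _ _ := rfl

theorem preMul_apply (a : MvPolynomial (Fin 3) K)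
    (φ : MvPolynomial (Fin 3) K →ₗ[K] MvPolynomial (Fin 3) K) (g : MvPolynomial (Fin 3) K) :
    preMul a φ g = φ (a * g) := rfl

/-- The statement proved by induction along the arrangement. -/
def Good (c : ι → Fin 3 → K) (t : Finset ι) (m : ℕ) : Prop :=
  Module.Free (MvPolynomial (Fin 3) K) (MM (fun i => lin (c i)) t m) ∧
    MM (fun i => lin (c i)) t m ≤ GG c t m

/-- The points used to add the hyperplane `h` to `t`. -/
structure Points (c : ι → Fin 3 → K) (t : Finset ι) (h : ι) (m r : ℕ) where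
  p : Fin r → Fin 3 → K
  L : Fin r → MvPolynomial (Fin 3) K
  hL : ∀ k, (L k).IsHomogeneous (m + 1)
  hLp : ∀ k l, eval (p l) (L k) = if k = l then 1 else 0
  hp0 : ∀ k, p k ≠ 0
  hph : ∀ k, ∑ j, c h j * p k j = 0
  hcov : ∀ i ∈ t, ∃ k, ∑ j, c i j * p k j = 0

theorem good_insert {t : Finset ι} {h : ι} (ht : h ∉ t) (hc : c h ≠ 0)
    (hd : ∀ j ∈ t, c j ≠ 0 ∧ cross (c j) (c h) ≠ 0 ∧ cross (c h) (c j) ≠ 0)
    (hdd : ∀ i ∈ t, ∀ j ∈ t, i ≠ j → cross (c i) (c j) ≠ 0) {m r : ℕ}
    (P : Points c t h m r) (hg : Good c t m) : Good c (insert h t) (m + 1) := by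
  classical
  obtain ⟨p, L, hL, hLp, hp0, hph, hcov⟩ := P
  have hdvd : ∀ j ∈ t, c j ≠ 0 ∧ ¬ lin (c j) ∣ lin (c h) :=
    fun j hj => ⟨(hd j hj).1, lin_not_dvd (hd j hj).2.1⟩
  have hlh : lin (c h) ≠ 0 := lin_ne_zero hc
  set A := insert h t with hA
  -- values at forms vanishing at the points
  have hval : ∀ φ ∈ MM (fun i => lin (c i)) A (m + 1), (∀ g, φ (lin (c h) * g) = 0) →
      ∀ i ∈ t, ∀ k, ∑ j, c i j * p k j = 0 → ∀ g : MvPolynomial (Fin 3) K,
        g.IsHomogeneous (m + 1) → eval (p k) g = 0 → lin (c i) ∣ φ g := by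
    intro φ hφ h0 i hi k hik g hgh hge
    obtain ⟨a, b, hab⟩ := mem_span_of_eval_eq_zero (hd i hi).2.2 (hp0 k) (hph k) hik hgh hge
    rw [hab, map_add, h0, zero_add]
    exact hφ.2 i (Finset.mem_insert_of_mem hi) b
  -- the subspace of forms
  set U : Submodule K (MvPolynomial (Fin 3) K) :=
    LinearMap.range (LinearMap.id - homogeneousComponent (m + 1)) ⊔
      (LinearMap.range (LinearMap.mulLeft K (lin (c h))) ⊔ Submodule.span K (Set.range L)) with hU
  have hU1 : ∀ g, g - homogeneousComponent (m + 1) g ∈ U := fun g =>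
    Submodule.mem_sup_left ⟨g, rfl⟩
  have hU2 : ∀ g, lin (c h) * g ∈ U := fun g =>
    Submodule.mem_sup_right (Submodule.mem_sup_left ⟨g, rfl⟩)
  have hU3 : ∀ k, L k ∈ U := fun k =>
    Submodule.mem_sup_right (Submodule.mem_sup_right (Submodule.subset_span ⟨k, rfl⟩))
  have hU4 : ∀ l : MvPolynomial (Fin 3) K →ₗ[K] MvPolynomial (Fin 3) K,
      (∀ g, l (homogeneousComponent (m + 1) g) = l g) → (∀ g, l (lin (c h) * g) = 0) →
      (∀ k, l (L k) = 0) → ∀ u ∈ U, l u = 0 := by
    intro l h1 h2 h3 u hu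
    have h4 : U ≤ LinearMap.ker l := by
      refine sup_le ?_ (sup_le ?_ ?_)
      · rintro _ ⟨g, rfl⟩
        rw [LinearMap.mem_ker, LinearMap.sub_apply, map_sub, LinearMap.id_apply, h1, sub_self]
      · rintro _ ⟨g, rfl⟩
        exact h2 g
      · refine Submodule.span_le.mpr ?_
        rintro _ ⟨k, rfl⟩
        exact h3 k
    exact h4 hu
  have hUfin := finite_quotient U (m + 1) hU1
  set Q := ∏ i ∈ t, lin (c i) with hQ
  have hQ0 : Q ≠ 0 := Finset.prod_ne_zero_iff.mpr fun i hi => lin_ne_zero (hd i hi).1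
  have hrel : ∀ i ∈ t, ∀ j ∈ t, i ≠ j → IsRelPrime (lin (c i)) (lin (c j)) := fun i hi j hj hij =>
    (prime_lin (hd i hi).1).irreducible.isRelPrime_iff_not_dvd.mpr (lin_not_dvd (hdd i hi j hj hij))
  -- the kernel
  set NN := MM (fun i => lin (c i)) A (m + 1) ⊓ LinearMap.ker (preMul (lin (c h))) with hNN
  have hNNmem : ∀ φ, φ ∈ NN ↔ φ ∈ MM (fun i => lin (c i)) A (m + 1) ∧
      ∀ g, φ (lin (c h) * g) = 0 := by
    intro φ
    rw [hNN, Submodule.mem_inf, LinearMap.mem_ker]
    refine and_congr_right fun _ => ⟨fun h g => LinearMap.congr_fun h g, fun h =>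
      LinearMap.ext h⟩
  let ρ : (MvPolynomial (Fin 3) K →ₗ[K] MvPolynomial (Fin 3) K) →ₗ[MvPolynomial (Fin 3) K]
      (Fin r → MvPolynomial (Fin 3) K) :=
    { toFun := fun φ k => φ (L k)
      map_add' := fun _ _ => rfl
      map_smul' := fun _ _ => rfl }
  let δ : (Fin r → MvPolynomial (Fin 3) K) →ₗ[MvPolynomial (Fin 3) K]
      (Fin r → MvPolynomial (Fin 3) K) :=
    { toFun := fun v k => v k * qp c A (p k)
      map_add' := fun v w => by
        funext k
        exact add_mul _ _ _
      map_smul' := fun s v => by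
        funext k
        simp only [Pi.smul_apply, smul_eq_mul, RingHom.id_apply]
        ring }
  have hqp0 : ∀ k, qp c A (p k) ≠ 0 := by
    intro k
    rw [qp]
    refine Finset.prod_ne_zero_iff.mpr fun i hi => ?_
    have hi' := Finset.mem_of_mem_filter i hi
    rw [hA, Finset.mem_insert] at hi'
    rcases hi' with rfl | hi'
    · exact hlh
    · exact lin_ne_zero (hd i hi').1
  have hδ : Function.Injective δ := by
    rw [injective_iff_map_eq_zero]
    intro v hv
    funext k
    exact (mul_eq_zero.mp (congrFun hv k)).resolve_right (hqp0 k)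
  -- the local elements
  have hloc : ∀ k, qp c A (p k) • loc (p k) 0 (m + 1) ∈ GG c A (m + 1) := fun k =>
    Submodule.subset_span (Or.inr (Or.inr ⟨p k, 0, rfl⟩))
  have hlocN : ∀ k, qp c A (p k) • loc (p k) 0 (m + 1) ∈ NN := by
    intro k
    rw [hNNmem]
    refine ⟨GG_le_MM A (m + 1) (hloc k), fun g => ?_⟩
    rw [LinearMap.smul_apply, loc_lin_mul_zero, hph, C_0, zero_mul, smul_zero]
  have hlocL : ∀ k l, (qp c A (p k) • loc (p k) 0 (m + 1)) (L l) =
      if l = k then qp c A (p k) else 0 := by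
    intro k l
    rw [LinearMap.smul_apply, loc_zero_eq_eval, hc_of_isHomogeneous (hL l), hLp]
    split_ifs with h1
    · rw [C_1, smul_eq_mul, mul_one]
    · rw [C_0, smul_zero]
  have hρlocsum : ∀ v : Fin r → MvPolynomial (Fin 3) K,
      ρ (∑ k, v k • (qp c A (p k) • loc (p k) 0 (m + 1))) = δ v := by
    intro v
    funext l
    change (∑ k, v k • (qp c A (p k) • loc (p k) 0 (m + 1))) (L l) = v l * qp c A (p l)
    rw [LinearMap.sum_apply, Finset.sum_eq_single l]
    · rw [LinearMap.smul_apply, hlocL, if_pos rfl, smul_eq_mul]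
    · intro k _ hk
      rw [LinearMap.smul_apply, hlocL, if_neg (Ne.symm hk), smul_zero]
    · intro h1
      exact absurd (Finset.mem_univ l) h1
  have hρmap : NN.map ρ = LinearMap.range δ := by
    apply le_antisymm
    · rintro _ ⟨φ, hφ, rfl⟩
      rw [SetLike.mem_coe, hNNmem] at hφ
      have h1 : ∀ k, qp c A (p k) ∣ φ (L k) := by
        intro k
        rw [qp]
        have hin : ∀ i ∈ A.filter (fun i => ∑ j, c i j * p k j ≠ 0), i ∈ t := by
          intro i hi
          rw [Finset.mem_filter, hA, Finset.mem_insert] at hi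
          rcases hi with ⟨rfl | hi, hi'⟩
          · exact absurd (hph k) hi'
          · exact hi
        refine Finset.prod_dvd_of_isRelPrime ?_ ?_
        · intro i hi j hj hij
          exact hrel i (hin i hi) j (hin j hj) hij
        · intro i hi
          obtain ⟨l, hl⟩ := hcov i (hin i hi)
          refine hval φ hφ.1 hφ.2 i (hin i hi) l hl (L k) (hL k) ?_
          rw [hLp, if_neg]
          rintro rfl
          exact (Finset.mem_filter.mp hi).2 hl
      choose v hv using h1
      refine ⟨v, funext fun k => ?_⟩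
      change v k * qp c A (p k) = φ (L k)
      rw [hv k, mul_comm]
    · rintro _ ⟨v, rfl⟩
      exact ⟨∑ k, v k • (qp c A (p k) • loc (p k) 0 (m + 1)),
        sum_mem fun k _ => Submodule.smul_mem _ _ (hlocN k), hρlocsum v⟩
  have hρker : NN ⊓ LinearMap.ker ρ = LinearMap.range (thetaMap U Q) := by
    ext φ
    rw [mem_range_thetaMap hQ0, Submodule.mem_inf, hNNmem, LinearMap.mem_ker]
    constructor
    · rintro ⟨⟨h1, h2⟩, h3⟩
      have h3' : ∀ k, φ (L k) = 0 := fun k => congrFun h3 k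
      refine ⟨fun g => ?_, hU4 φ h1.1 h2 h3'⟩
      have h4 : φ g = φ (homogeneousComponent (m + 1) g -
          ∑ k, C (eval (p k) (homogeneousComponent (m + 1) g)) * L k) := by
        rw [map_sub, map_sum, h1.1]
        have : ∀ k, φ (C (eval (p k) (homogeneousComponent (m + 1) g)) * L k) = 0 := by
          intro k
          rw [← smul_eq_C_mul, map_smul, h3', smul_zero]
        simp only [this, Finset.sum_const_zero, sub_zero]
      have h5 : (homogeneousComponent (m + 1) g -
          ∑ k, C (eval (p k) (homogeneousComponent (m + 1) g)) * L k).IsHomogeneous (m + 1) := by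
        refine (homogeneousComponent_isHomogeneous _ _).sub (IsHomogeneous.sum _ _ _ fun k _ => ?_)
        have := (isHomogeneous_C (Fin 3) (eval (p k) (homogeneousComponent (m + 1) g))).mul (hL k)
        rwa [zero_add] at this
      have h6 : ∀ l, eval (p l) (homogeneousComponent (m + 1) g -
          ∑ k, C (eval (p k) (homogeneousComponent (m + 1) g)) * L k) = 0 := by
        intro l
        rw [map_sub, map_sum, Finset.sum_eq_single l]
        · rw [map_mul, hLp, if_pos rfl, eval_C, mul_one, sub_self]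
        · intro k _ hk
          rw [map_mul, hLp, if_neg hk, mul_zero]
        · intro h1
          exact absurd (Finset.mem_univ l) h1
      rw [h4, hQ]
      refine Finset.prod_dvd_of_isRelPrime (fun i hi j hj hij => hrel i hi j hj hij) ?_
      intro i hi
      obtain ⟨l, hl⟩ := hcov i hi
      exact hval φ h1 h2 i hi l hl _ h5 (h6 l)
    · rintro ⟨h1, h2⟩
      have h3 : ∀ g, φ (homogeneousComponent (m + 1) g) = φ g := by
        intro g
        have := h2 _ (hU1 g)
        rw [map_sub, sub_eq_zero] at this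
        exact this.symm
      have h4 : ∀ g, φ (lin (c h) * g) = 0 := fun g => h2 _ (hU2 g)
      refine ⟨⟨⟨h3, fun i hi g => ?_⟩, h4⟩, funext fun k => h2 _ (hU3 k)⟩
      rw [hA, Finset.mem_insert] at hi
      rcases hi with rfl | hi
      · change lin (c i) ∣ φ (lin (c i) * g)
        rw [h4]
        exact dvd_zero _
      · exact (Finset.dvd_prod_of_mem (fun i => lin (c i)) hi).trans (h1 _)
  have hNNfree : Module.Free (MvPolynomial (Fin 3) K) NN := by
    refine free_ext NN ρ ?_ ?_
    · rw [hρmap]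
      exact free_range_of_injective δ hδ
    · rw [hρker]
      exact free_range_thetaMap U hUfin hQ0
  have hNNG : NN ≤ GG c A (m + 1) := by
    intro φ hφ
    have h1 : ρ φ ∈ LinearMap.range δ := by
      rw [← hρmap]
      exact ⟨φ, hφ, rfl⟩
    obtain ⟨v, hv⟩ := h1
    set φ' := ∑ k, v k • (qp c A (p k) • loc (p k) 0 (m + 1)) with hφ'
    have h2 : φ' ∈ GG c A (m + 1) := sum_mem fun k _ => Submodule.smul_mem _ _ (hloc k)
    have h3 : φ' ∈ NN := sum_mem fun k _ => Submodule.smul_mem _ _ (hlocN k)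
    have h4 : φ - φ' ∈ NN ⊓ LinearMap.ker ρ := by
      refine ⟨sub_mem hφ h3, ?_⟩
      rw [SetLike.mem_coe, LinearMap.mem_ker, map_sub, hρlocsum, hv, sub_self]
    rw [hρker] at h4
    have h5 : LinearMap.range (thetaMap U Q) ≤ GG c A (m + 1) := by
      refine range_thetaMap_le U hUfin Q _ ?_
      intro l hl
      refine Submodule.subset_span (Or.inr (Or.inl ⟨h, Finset.mem_insert_self h t, l, ?_, ?_, ?_⟩))
      · intro g
        have := hl _ (hU1 g)
        rw [map_sub, sub_eq_zero] at this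
        exact this.symm
      · exact fun g => hl _ (hU2 g)
      · rw [hA, Finset.erase_insert ht]
    have h6 : φ = (φ - φ') + φ' := by abel
    rw [h6]
    exact add_mem (h5 h4) h2
  -- the image
  have hinj : Function.Injective (LinearMap.lsmul (MvPolynomial (Fin 3) K)
      (MvPolynomial (Fin 3) K →ₗ[K] MvPolynomial (Fin 3) K) (lin (c h))) := by
    rw [injective_iff_map_eq_zero]
    intro φ hφ
    refine LinearMap.ext fun g => ?_
    have h1 := LinearMap.congr_fun hφ g
    rw [LinearMap.lsmul_apply, LinearMap.smul_apply, LinearMap.zero_apply, smul_eq_mul] at h1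
    exact (mul_eq_zero.mp h1).resolve_left hlh
  have hψ : ∀ φ ∈ MM (fun i => lin (c i)) A (m + 1), ∃ ψ ∈ MM (fun i => lin (c i)) t m,
      ∀ g, φ (lin (c h) * g) = lin (c h) * ψ g := by
    intro φ hφ
    obtain ⟨ψ, hψ⟩ := exists_div hlh (preMul (lin (c h)) φ)
      (fun g => hφ.2 h (Finset.mem_insert_self h t) g)
    have hψ' : ∀ g, φ (lin (c h) * g) = lin (c h) * ψ g := hψ
    refine ⟨ψ, ⟨fun g => ?_, fun i hi g => ?_⟩, hψ'⟩
    · apply mul_left_cancel₀ hlh
      rw [← hψ', ← hψ', ← hc_lin_mul, hφ.1]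
    · have h1 := hφ.2 i (Finset.mem_insert_of_mem hi) (lin (c h) * g)
      have h2 : lin (c i) * (lin (c h) * g) = lin (c h) * (lin (c i) * g) := by ring
      change lin (c i) ∣ φ (lin (c i) * (lin (c h) * g)) at h1
      rw [h2, hψ'] at h1
      exact ((prime_lin (hd i hi).1).dvd_or_dvd h1).resolve_left (hdvd i hi).2
  have himage : (MM (fun i => lin (c i)) A (m + 1)).map (preMul (lin (c h))) =
      (MM (fun i => lin (c i)) t m).map (LinearMap.lsmul (MvPolynomial (Fin 3) K)
        (MvPolynomial (Fin 3) K →ₗ[K] MvPolynomial (Fin 3) K) (lin (c h))) := by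
    apply le_antisymm
    · rintro _ ⟨φ, hφ, rfl⟩
      obtain ⟨ψ, h1, h2⟩ := hψ φ hφ
      exact ⟨ψ, h1, LinearMap.ext fun g => (h2 g).symm⟩
    · rintro _ ⟨ψ, hψ1, rfl⟩
      obtain ⟨φ, h1, h2⟩ := exists_lift ht hc hdvd (hg.2 hψ1)
      exact ⟨φ, GG_le_MM _ _ h1, LinearMap.ext fun g => h2 g⟩
  refine ⟨free_ext _ (preMul (lin (c h))) ?_ hNNfree, ?_⟩
  · rw [himage]
    exact free_map_of_injective _ hg.1 _ hinj
  · intro φ hφ
    obtain ⟨ψ, h1, h2⟩ := hψ φ hφ
    obtain ⟨φ', h3, h4⟩ := exists_lift ht hc hdvd (hg.2 h1)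
    have h5 : φ - φ' ∈ NN := by
      rw [hNNmem]
      refine ⟨sub_mem hφ (GG_le_MM _ _ h3), fun g => ?_⟩
      rw [LinearMap.sub_apply, h2, h4, sub_self]
    have h6 : φ = (φ - φ') + φ' := by abel
    rw [h6]
    exact add_mem (hNNG h5) h3

end Pool.Agent.Lib.MP_5ef5ec_co
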