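import Pool.Agent.Lib.MP_5ef5ec_co.Mod

/-!
# Linear forms
-/

namespace Pool.Agent.Lib.MP_5ef5ec_co

open MvPolynomial

variable {K : Type*} [Field K] {n : ℕ}

theorem coeff_lin (c : Fin n → K) (i : Fin n) : coeff (Finsupp.single i 1) (lin c) = c i := by
  classical
  rw [lin, coeff_sum, Finset.sum_eq_single i]
  · rw [coeff_C_mul, coeff_X, if_pos rfl, mul_one]
  · intro b _ hb
    rw [coeff_C_mul, coeff_X, if_neg, mul_zero]
    intro h
    exact hb ((Finsupp.single_left_injective one_ne_zero) h)
  · intro h
    exact absurd (Finset.mem_univ i) h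

theorem lin_ne_zero {c : Fin n → K} (hc : c ≠ 0) : lin c ≠ 0 := by
  intro h
  apply hc
  funext i
  rw [← coeff_lin c i, h, coeff_zero, Pi.zero_apply]

theorem prime_lin {c : Fin n → K} (hc : c ≠ 0) : Prime (lin c) := by
  refine Irreducible.prime ?_
  refine irreducible_of_totalDegree_eq_one ?_ ?_
  · exact (lin_isHomogeneous c).totalDegree (lin_ne_zero hc)
  · intro x hx
    obtain ⟨i, hi⟩ := Function.ne_iff.mp hc
    have h1 := hx (Finsupp.single i 1)
    rw [coeff_lin] at h1
    refine isUnit_of_dvd_unit h1 (isUnit_iff_ne_zero.mpr hi)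

/-- A linear form which does not vanish at a zero of another one is not a multiple of it. -/
theorem not_dvd_of_eval {f g : MvPolynomial (Fin n) K} (p : Fin n → K) (h1 : eval p f = 0)
    (h2 : eval p g ≠ 0) : ¬ f ∣ g := by
  rintro ⟨h, rfl⟩
  apply h2
  rw [map_mul, h1, zero_mul]

/-- The cross product of two vectors. -/
def cross (c d : Fin 3 → K) : Fin 3 → K :=
  ![c 1 * d 2 - c 2 * d 1, c 2 * d 0 - c 0 * d 2, c 0 * d 1 - c 1 * d 0]

theorem lin_not_dvd {c d : Fin 3 → K} (h : cross c d ≠ 0) : ¬ lin c ∣ lin d := by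
  obtain ⟨i, hi⟩ := Function.ne_iff.mp h
  fin_cases i
  · refine not_dvd_of_eval ![0, - c 2, c 1] ?_ ?_
    · rw [eval_lin, Fin.sum_univ_three]
      simp
      ring
    · rw [eval_lin, Fin.sum_univ_three]
      simp only [cross] at hi
      simp at hi ⊢
      intro h0
      apply hi
      linear_combination h0
  · refine not_dvd_of_eval ![c 2, 0, - c 0] ?_ ?_
    · rw [eval_lin, Fin.sum_univ_three]
      simp
      ring
    · rw [eval_lin, Fin.sum_univ_three]
      simp only [cross] at hi
      simp at hi ⊢
      intro h0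
      apply hi
      linear_combination h0
  · refine not_dvd_of_eval ![- c 1, c 0, 0] ?_ ?_
    · rw [eval_lin, Fin.sum_univ_three]
      simp
      ring
    · rw [eval_lin, Fin.sum_univ_three]
      simp only [cross] at hi
      simp at hi ⊢
      intro h0
      apply hi
      linear_combination h0

/-- Values of forms scale. -/
theorem aeval_smul_form {A : Type*} [CommRing A] [Algebra K A] {d : ℕ}
    {G : MvPolynomial (Fin n) K} (hG : G.IsHomogeneous d) (r : A) (y : Fin n → A) :
    aeval (fun i => r * y i) G = r ^ d * aeval y G := by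
  rw [aeval_def, aeval_def, eval₂_eq, eval₂_eq, Finset.mul_sum]
  refine Finset.sum_congr rfl fun m hm => ?_
  have h1 : ∑ i ∈ m.support, m i = d := (hG.degree_eq_sum_deg_support hm).symm
  simp only [mul_pow, Finset.prod_mul_distrib]
  rw [Finset.prod_pow_eq_pow_sum, h1]
  ring

/-- A form vanishing at the common zero of two independent linear forms lies in the ideal
generated by them. -/
theorem mem_span_of_eval_eq_zero {c d p : Fin 3 → K} (h : cross c d ≠ 0) (hp : p ≠ 0)
    (hc : ∑ j, c j * p j = 0) (hd : ∑ j, d j * p j = 0) {m : ℕ}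
    {g : MvPolynomial (Fin 3) K} (hg : g.IsHomogeneous m) (h0 : eval p g = 0) :
    ∃ a b, g = lin c * a + lin d * b := by
  rw [Fin.sum_univ_three] at hc hd
  -- a vector `w` with `w · (c × d) = 1`
  obtain ⟨w, hw⟩ : ∃ w : Fin 3 → K, ∑ j, w j * cross c d j = 1 := by
    obtain ⟨i, hi⟩ := Function.ne_iff.mp h
    refine ⟨Pi.single i (cross c d i)⁻¹, ?_⟩
    rw [Finset.sum_eq_single i]
    · rw [Pi.single_eq_same]
      exact inv_mul_cancel₀ hi
    · intro b _ hb
      rw [Pi.single_eq_of_ne hb, zero_mul]
    · intro h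
      exact absurd (Finset.mem_univ i) h
  rw [Fin.sum_univ_three] at hw
  have e0 : cross c d 0 = c 1 * d 2 - c 2 * d 1 := rfl
  have e1 : cross c d 1 = c 2 * d 0 - c 0 * d 2 := rfl
  have e2 : cross c d 2 = c 0 * d 1 - c 1 * d 0 := rfl
  -- `p` is a multiple of the cross product
  have hps : ∀ i, p i = (w 0 * p 0 + w 1 * p 1 + w 2 * p 2) * cross c d i := by
    intro i
    rw [e0, e1, e2] at hw
    fin_cases i
    · change p 0 = _ * cross c d 0
      rw [e0]
      linear_combination (-p 0) * hw - (w 1 * d 2 - w 2 * d 1) * hc -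
        (-(w 1 * c 2) + w 2 * c 1) * hd
    · change p 1 = _ * cross c d 1
      rw [e1]
      linear_combination (-p 1) * hw - (w 2 * d 0 - w 0 * d 2) * hc -
        (-(w 2 * c 0) + w 0 * c 2) * hd
    · change p 2 = _ * cross c d 2
      rw [e2]
      linear_combination (-p 2) * hw - (w 0 * d 1 - w 1 * d 0) * hc -
        (-(w 0 * c 1) + w 1 * c 0) * hd
  have hs : w 0 * p 0 + w 1 * p 1 + w 2 * p 2 ≠ 0 := by
    intro h1
    apply hp
    funext i
    rw [hps i, h1, zero_mul, Pi.zero_apply]
  have hgd : eval (cross c d) g = 0 := by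
    have h1 : eval p g = (w 0 * p 0 + w 1 * p 1 + w 2 * p 2) ^ m * eval (cross c d) g := by
      have h2 := aeval_smul_form hg (w 0 * p 0 + w 1 * p 1 + w 2 * p 2) (cross c d)
      rw [← (funext hps : p = fun i => (w 0 * p 0 + w 1 * p 1 + w 2 * p 2) * cross c d i)] at h2
      exact h2
    rw [h0] at h1
    exact (mul_eq_zero.mp h1.symm).resolve_left (pow_ne_zero _ hs)
  -- work modulo the ideal
  set I : Ideal (MvPolynomial (Fin 3) K) := Ideal.span {lin c, lin d} with hI
  have hmem : g ∈ I := by
    rw [← Ideal.Quotient.eq_zero_iff_mem]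
    have hlc : Ideal.Quotient.mk I (lin c) = 0 :=
      Ideal.Quotient.eq_zero_iff_mem.mpr (Ideal.subset_span (by simp))
    have hld : Ideal.Quotient.mk I (lin d) = 0 :=
      Ideal.Quotient.eq_zero_iff_mem.mpr (Ideal.subset_span (by simp))
    have hX : ∀ i, Ideal.Quotient.mk I (X i) =
        Ideal.Quotient.mk I (lin w) * algebraMap K (MvPolynomial (Fin 3) K ⧸ I) (cross c d i) := by
      intro i
      have hC : ∀ r : K, algebraMap K (MvPolynomial (Fin 3) K ⧸ I) r =
          Ideal.Quotient.mk I (C r) := fun r => rfl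
      rw [hC, ← map_mul]
      have hwC : (C (w 0) * C (cross c d 0) + C (w 1) * C (cross c d 1) +
          C (w 2) * C (cross c d 2) : MvPolynomial (Fin 3) K) = 1 := by
        rw [← C_mul, ← C_mul, ← C_mul, ← C_add, ← C_add, hw, C_1]
      rw [e0, e1, e2] at hwC
      simp only [C_sub, C_mul] at hwC
      have hl : ∀ v : Fin 3 → K, lin v = C (v 0) * X 0 + C (v 1) * X 1 + C (v 2) * X 2 := by
        intro v
        rw [lin, Fin.sum_univ_three]
      have key : ∀ u v, X i - lin w * C (cross c d i) = lin c * u + lin d * v →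
          Ideal.Quotient.mk I (X i) = Ideal.Quotient.mk I (lin w * C (cross c d i)) := by
        intro u v huv
        rw [← sub_eq_zero, ← map_sub, huv, map_add, map_mul, map_mul, hlc, hld, zero_mul,
          zero_mul, add_zero]
      fin_cases i
      · change Ideal.Quotient.mk I (X 0) = Ideal.Quotient.mk I (lin w * C (cross c d 0))
        refine key (-(C (w 1) * C (d 2)) + C (w 2) * C (d 1))
          (C (w 1) * C (c 2) - C (w 2) * C (c 1)) ?_
        change X 0 - lin w * C (cross c d 0) = _
        rw [e0, hl, hl, hl]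
        simp only [C_sub, C_mul]
        linear_combination (-(X 0)) * hwC
      · change Ideal.Quotient.mk I (X 1) = Ideal.Quotient.mk I (lin w * C (cross c d 1))
        refine key (-(C (w 2) * C (d 0)) + C (w 0) * C (d 2))
          (C (w 2) * C (c 0) - C (w 0) * C (c 2)) ?_
        change X 1 - lin w * C (cross c d 1) = _
        rw [e1, hl, hl, hl]
        simp only [C_sub, C_mul]
        linear_combination (-(X 1)) * hwC
      · change Ideal.Quotient.mk I (X 2) = Ideal.Quotient.mk I (lin w * C (cross c d 2))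
        refine key (-(C (w 0) * C (d 1)) + C (w 1) * C (d 0))
          (C (w 0) * C (c 1) - C (w 1) * C (c 0)) ?_
        change X 2 - lin w * C (cross c d 2) = _
        rw [e2, hl, hl, hl]
        simp only [C_sub, C_mul]
        linear_combination (-(X 2)) * hwC
    have h1 : Ideal.Quotient.mk I g = aeval (fun i => Ideal.Quotient.mk I (X i)) g := by
      have h2 : (Ideal.Quotient.mkₐ K I) = aeval (fun i => Ideal.Quotient.mk I (X i)) := by
        apply MvPolynomial.algHom_ext
        intro i
        rw [aeval_X]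
        rfl
      exact congrArg (fun f : MvPolynomial (Fin 3) K →ₐ[K] _ => f g) h2
    rw [h1, funext hX, aeval_smul_form hg]
    have h3 : aeval (fun i => algebraMap K (MvPolynomial (Fin 3) K ⧸ I) (cross c d i)) g
        = algebraMap K _ (eval (cross c d) g) := by
      rw [aeval_def, eval₂_eq, eval_eq, map_sum]
      refine Finset.sum_congr rfl fun m _ => ?_
      rw [map_mul, map_prod]
      simp only [map_pow]
    rw [h3, hgd, map_zero, mul_zero]
  rw [hI, Ideal.mem_span_pair] at hmem
  obtain ⟨a, b, hab⟩ := hmem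
  exact ⟨a, b, by rw [← hab]; ring⟩

end Pool.Agent.Lib.MP_5ef5ec_co
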