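import Pool.Agent.Lib.MP_5ef5ec_co.Ops

/-!
# The hyperplane model of `D^{(m)}(𝒜)`
-/

namespace Pool.Agent.Lib.MP_5ef5ec_co

open MvPolynomial

variable {K : Type*} [Field K] {n : ℕ} {ι : Type*}

/-- Linear maps on forms of degree `m` with values in `S` mapping `α_i S` into `α_i S`. -/
noncomputable def MM (α : ι → MvPolynomial (Fin n) K) (t : Finset ι) (m : ℕ) :
    Submodule (MvPolynomial (Fin n) K)
      (MvPolynomial (Fin n) K →ₗ[K] MvPolynomial (Fin n) K) where
  carrier := {φ | (∀ g, φ (homogeneousComponent m g) = φ g) ∧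
    ∀ i ∈ t, ∀ g, α i ∣ φ (α i * g)}
  zero_mem' := ⟨fun _ => rfl, fun i _ g => by simp⟩
  add_mem' := by
    rintro θ θ' ⟨h1, h2⟩ ⟨h1', h2'⟩
    exact ⟨fun g => by rw [LinearMap.add_apply, LinearMap.add_apply, h1, h1'], fun i hi f => by
      rw [LinearMap.add_apply]
      exact dvd_add (h2 i hi f) (h2' i hi f)⟩
  smul_mem' := by
    rintro s θ ⟨h1, h2⟩
    exact ⟨fun g => by rw [LinearMap.smul_apply, LinearMap.smul_apply, h1], fun i hi f => by
      rw [LinearMap.smul_apply, smul_eq_mul]
      exact Dvd.dvd.mul_left (h2 i hi f) s⟩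

theorem mem_MM {α : ι → MvPolynomial (Fin n) K} {t : Finset ι} {m : ℕ}
    {φ : MvPolynomial (Fin n) K →ₗ[K] MvPolynomial (Fin n) K} :
    φ ∈ MM α t m ↔ (∀ g, φ (homogeneousComponent m g) = φ g) ∧
      ∀ i ∈ t, ∀ g, α i ∣ φ (α i * g) := Iff.rfl

theorem lin_isHomogeneous (c : Fin n → K) : (lin c).IsHomogeneous 1 := by
  refine IsHomogeneous.sum _ _ _ fun j _ => ?_
  have := (isHomogeneous_C (Fin n) (c j)).mul (isHomogeneous_X K j)
  rwa [zero_add] at this

theorem eval_lin (c : Fin n → K) (p : Fin n → K) : eval p (lin c) = ∑ j, c j * p j := by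
  rw [lin, map_sum]
  simp

theorem hc_mul_of_isHomogeneous {f : MvPolynomial (Fin n) K} {d : ℕ} (hf : f.IsHomogeneous d)
    (m : ℕ) (g : MvPolynomial (Fin n) K) :
    homogeneousComponent (m + d) (f * g) = f * homogeneousComponent m g := by
  conv_lhs => rw [← sum_homogeneousComponent g, Finset.mul_sum, map_sum]
  have h1 : ∀ k, homogeneousComponent (m + d) (f * homogeneousComponent k g) =
      if k = m then f * homogeneousComponent k g else 0 := by
    intro k
    have h2 : (f * homogeneousComponent k g).IsHomogeneous (d + k) :=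
      hf.mul (homogeneousComponent_isHomogeneous k g)
    rw [homogeneousComponent_of_mem h2]
    by_cases h : k = m
    · rw [if_pos h, if_pos (by omega)]
    · rw [if_neg h, if_neg (by omega)]
  simp only [h1]
  rw [Finset.sum_ite_eq' (Finset.range (g.totalDegree + 1)) m]
  split_ifs with h
  · rfl
  · rw [Finset.mem_range, not_lt] at h
    rw [homogeneousComponent_eq_zero m g (by omega), mul_zero]

theorem hc_lin_mul (c : Fin n → K) (m : ℕ) (g : MvPolynomial (Fin n) K) :
    homogeneousComponent (m + 1) (lin c * g) = lin c * homogeneousComponent m g :=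
  hc_mul_of_isHomogeneous (lin_isHomogeneous c) m g

theorem hc_zero_lin_mul (c : Fin n → K) (g : MvPolynomial (Fin n) K) :
    homogeneousComponent 0 (lin c * g) = 0 := by
  rw [homogeneousComponent_zero, ← constantCoeff_eq, map_mul]
  have : constantCoeff (lin c) = 0 := by
    rw [lin, map_sum]
    simp
  rw [this, zero_mul, C_0]

theorem hc_hc (m : ℕ) (g : MvPolynomial (Fin n) K) :
    homogeneousComponent m (homogeneousComponent m g) = homogeneousComponent m g := by
  rw [homogeneousComponent_of_mem (homogeneousComponent_isHomogeneous m g), if_pos rfl]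

theorem hc_of_isHomogeneous {m : ℕ} {g : MvPolynomial (Fin n) K} (h : g.IsHomogeneous m) :
    homogeneousComponent m g = g := by
  rw [homogeneousComponent_of_mem h, if_pos rfl]

theorem isHomogeneous_monomial_ex (a : Fin n → ℕ) (c : K) :
    (monomial (ex a) c).IsHomogeneous (∑ i, a i) := by
  refine isHomogeneous_monomial c ?_
  rw [Finsupp.degree_eq_sum]
  rfl

/-- The condition at one hyperplane can be tested on forms. -/
theorem dvd_of_hc [CharZero K] {m : ℕ} {c : Fin n → K}
    {θ : MvPolynomial (Fin n) K →ₗ[K] MvPolynomial (Fin n) K} (hθ : θ ∈ ops K n m)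
    (h : ∀ g, lin c ∣ θ (homogeneousComponent m (lin c * g))) (f : MvPolynomial (Fin n) K) :
    lin c ∣ θ (lin c * f) := by
  rcases m with _ | m
  · obtain ⟨s, hs⟩ := ops_zero hθ
    rw [hs]
    exact Dvd.dvd.mul_left (Dvd.intro _ rfl) _
  · have hD := comm_lin_mem hθ c
    have h1 : ∀ g, lin c ∣ (θ ∘ₗ LinearMap.mulLeft K (lin c) -
        LinearMap.mulLeft K (lin c) ∘ₗ θ) g := by
      intro g
      rw [ops_eq_sum hD, LinearMap.sum_apply]
      refine Finset.dvd_sum fun a ha => ?_
      rw [Finset.mem_piAntidiag] at ha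
      have ham : ∑ i, a i = m := ha.1
      rw [LinearMap.smul_apply, smul_eq_mul]
      refine Dvd.dvd.mul_right (Dvd.dvd.mul_left ?_ _) _
      simp only [LinearMap.sub_apply, LinearMap.comp_apply, LinearMap.mulLeft_apply]
      refine dvd_sub ?_ (Dvd.intro _ rfl)
      have h2 := h (monomial (ex a) 1)
      rw [hc_lin_mul, hc_of_isHomogeneous (ham ▸ isHomogeneous_monomial_ex a 1)] at h2
      exact h2
    have h2 := h1 f
    simp only [LinearMap.sub_apply, LinearMap.comp_apply, LinearMap.mulLeft_apply] at h2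
    have h3 : θ (lin c * f) = (θ (lin c * f) - lin c * θ f) + lin c * θ f := by ring
    rw [h3]
    exact dvd_add h2 (Dvd.intro _ rfl)

theorem exists_ops_of_hc [CharZero K] {m : ℕ}
    {φ : MvPolynomial (Fin n) K →ₗ[K] MvPolynomial (Fin n) K}
    (h : ∀ g, φ (homogeneousComponent m g) = φ g) :
    ∃ θ ∈ ops K n m, θ ∘ₗ homogeneousComponent m = φ := by
  refine ⟨∑ a ∈ Finset.piAntidiag (Finset.univ : Finset (Fin n)) m,
      (C (∏ i, ((a i).factorial : K))⁻¹ * φ (monomial (ex a) 1)) • dpow K a, ?_, ?_⟩
  · refine sum_mem fun a ha => Submodule.smul_mem _ _ ?_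
    rw [Finset.mem_piAntidiag] at ha
    exact Submodule.subset_span ⟨a, ha.1, rfl⟩
  · refine (basisMonomials (Fin n) K).ext fun s => ?_
    rw [coe_basisMonomials, LinearMap.comp_apply]
    by_cases hs : ∑ i, s i = m
    · have h1 : homogeneousComponent m (monomial s (1 : K)) = monomial s 1 := by
        apply hc_of_isHomogeneous
        refine isHomogeneous_monomial _ ?_
        rw [Finsupp.degree_eq_sum]
        exact hs
      rw [h1, LinearMap.sum_apply, Finset.sum_eq_single (fun i => s i)]
      · have h2 : ex (fun i => s i) = s := by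
          ext i
          rfl
        have h3 := dpow_monomial_self (K := K) (fun i => s i)
        rw [h2] at h3
        rw [LinearMap.smul_apply, smul_eq_mul, h2, h3, mul_comm, ← mul_assoc, ← C_mul,
          mul_inv_cancel₀ (prod_factorial_ne_zero _), C_1, one_mul]
      · intro a ha hab
        rw [Finset.mem_piAntidiag] at ha
        obtain ⟨i, hi⟩ := exists_lt_of_sum_le (a := a) (b := fun i => s i)
          (by rw [hs, ha.1]) (Ne.symm hab)
        rw [LinearMap.smul_apply, dpow_monomial_of_lt a s 1 hi, smul_zero]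
      · intro hn
        exfalso
        apply hn
        rw [Finset.mem_piAntidiag]
        exact ⟨hs, fun i _ => Finset.mem_univ i⟩
    · have h1 : homogeneousComponent m (monomial s (1 : K)) = 0 := by
        rw [homogeneousComponent_of_mem (isHomogeneous_monomial (n := ∑ i, s i) _ (by
          rw [Finsupp.degree_eq_sum])), if_neg (Ne.symm hs)]
      rw [h1, map_zero, ← h, h1, map_zero]

/-- `D^{(m)}(𝒜)` is isomorphic to its hyperplane model. -/
theorem free_logOps_of_free_MM [CharZero K] {c : ι → Fin n → K} {t : Finset ι} {m : ℕ}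
    (hp : ∀ i ∈ t, Prime (lin (c i))) (hd : ∀ i ∈ t, ∀ j ∈ t, i ≠ j → ¬ lin (c i) ∣ lin (c j))
    (h : Module.Free (MvPolynomial (Fin n) K) (MM (fun i => lin (c i)) t m)) :
    Module.Free (MvPolynomial (Fin n) K) (logOps (∏ i ∈ t, lin (c i)) m) := by
  classical
  let F : (MvPolynomial (Fin n) K →ₗ[K] MvPolynomial (Fin n) K) →ₗ[MvPolynomial (Fin n) K]
      (MvPolynomial (Fin n) K →ₗ[K] MvPolynomial (Fin n) K) :=
    { toFun := fun θ => θ ∘ₗ homogeneousComponent m
      map_add' := fun θ θ' => rfl
      map_smul' := fun s θ => rfl }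
  have hprod : ∀ i ∈ t, ¬ lin (c i) ∣ ∏ j ∈ t.erase i, lin (c j) := by
    intro i hi h1
    rw [(hp i hi).dvd_finsetProd_iff] at h1
    obtain ⟨j, hj, h2⟩ := h1
    exact hd i hi j (Finset.mem_of_mem_erase hj) (Finset.ne_of_mem_erase hj).symm h2
  have hmem : ∀ θ ∈ logOps (∏ i ∈ t, lin (c i)) m, F θ ∈ MM (fun i => lin (c i)) t m := by
    rintro θ ⟨h1, h2⟩
    refine ⟨fun g => ?_, fun i hi g => ?_⟩
    · change θ (homogeneousComponent m (homogeneousComponent m g)) = θ (homogeneousComponent m g)
      rw [hc_hc]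
    · change lin (c i) ∣ θ (homogeneousComponent m (lin (c i) * g))
      have h3 : ∀ f, lin (c i) ∣ θ (lin (c i) * f) := by
        refine dvd_of_mem_logOps (hp i hi) (hprod i hi) rfl h1 ?_
        intro f
        rw [Finset.mul_prod_erase t (fun j => lin (c j)) hi]
        exact (Finset.dvd_prod_of_mem (fun j => lin (c j)) hi).trans (h2 f)
      rcases m with _ | m
      · rw [hc_zero_lin_mul, map_zero]
        exact dvd_zero _
      · rw [hc_lin_mul]
        exact h3 _
  let F' : logOps (∏ i ∈ t, lin (c i)) m →ₗ[MvPolynomial (Fin n) K]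
      MM (fun i => lin (c i)) t m := F.restrict hmem
  have hbij : Function.Bijective F' := by
    constructor
    · rw [injective_iff_map_eq_zero]
      rintro ⟨θ, hθ⟩ h0
      have h1 : θ ∘ₗ homogeneousComponent m = 0 := congrArg Subtype.val h0
      apply Subtype.ext
      change θ = 0
      rw [ops_eq_sum hθ.1]
      refine Finset.sum_eq_zero fun a ha => ?_
      rw [Finset.mem_piAntidiag] at ha
      have h2 := LinearMap.congr_fun h1 (monomial (ex a) 1)
      have ham : ∑ i, a i = m := ha.1
      rw [LinearMap.comp_apply, hc_of_isHomogeneous (ham ▸ isHomogeneous_monomial_ex a 1)] at h2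
      rw [h2, LinearMap.zero_apply, mul_zero, zero_smul]
    · rintro ⟨φ, hφ⟩
      obtain ⟨θ, hθ, h1⟩ := exists_ops_of_hc hφ.1
      refine ⟨⟨θ, hθ, fun f => ?_⟩, Subtype.ext h1⟩
      refine Finset.prod_dvd_of_isRelPrime ?_ ?_
      · intro i hi j hj hij
        exact (hp i hi).irreducible.isRelPrime_iff_not_dvd.mpr (hd i hi j hj hij)
      · intro i hi
        rw [← Finset.mul_prod_erase t (fun j => lin (c j)) hi, mul_assoc]
        refine dvd_of_hc hθ (fun g => ?_) _
        have h2 := LinearMap.congr_fun h1 (lin (c i) * g)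
        rw [LinearMap.comp_apply] at h2
        rw [h2]
        exact hφ.2 i hi g
  exact Module.Free.of_equiv (LinearEquiv.ofBijective F' hbij).symm

end Pool.Agent.Lib.MP_5ef5ec_co
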