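import Pool.Agent.Lib.MP_5ef5ec_co.Chain

/-!
# Non-freeness above a generic point of the flat `x_1 = x_2 = z = 0`
-/

namespace Pool.Agent.Lib.MP_5ef5ec_co

open MvPolynomial

/-- Koszul type property of free modules. -/
theorem exists_of_free {R M : Type*} [CommRing R] [AddCommGroup M] [Module R M]
    [Module.Free R M] {a b c : R} (hc : ∀ s, (∃ g h, c * s = a * g + b * h) →
      ∃ g h, s = a * g + b * h) {w u v : M} (h : c • w = a • u + b • v) :
    ∃ u' v' : M, w = a • u' + b • v' := by
  let B := Module.Free.chooseBasis R M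
  have h1 : ∀ i, ∃ g h, B.repr w i = a * g + b * h := by
    intro i
    apply hc
    refine ⟨B.repr u i, B.repr v i, ?_⟩
    have h2 := congrArg (fun x => B.repr x i) h
    simpa using h2
  choose g g' hg using h1
  refine ⟨∑ i ∈ (B.repr w).support, g i • B i, ∑ i ∈ (B.repr w).support, g' i • B i, ?_⟩
  conv_lhs => rw [← B.linearCombination_repr w, Finsupp.linearCombination_apply, Finsupp.sum]
  rw [Finset.smul_sum, Finset.smul_sum, ← Finset.sum_add_distrib]
  refine Finset.sum_congr rfl fun i _ => ?_
  rw [hg i, smul_smul, smul_smul, ← add_smul]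

variable {K : Type*} [Field K] {n : ℕ}

theorem dpow_mul_pd (a : Fin n → ℕ) (i : Fin n) :
    dpow K a * pd K i = dpow K (a + Pi.single i 1) := by
  refine (basisMonomials (Fin n) K).ext fun s => ?_
  rw [coe_basisMonomials, Module.End.mul_apply]
  have h1 : pd K i (monomial s (1 : K)) = monomial (s - Finsupp.single i 1) (1 * (s i : K)) :=
    pderiv_monomial
  rw [h1, one_mul, dpow_monomial, dpow_monomial]
  have h2 : s - Finsupp.single i 1 - ex a = s - ex (a + Pi.single i 1) := by
    ext j
    simp only [Finsupp.tsub_apply, ex_apply, Pi.add_apply, Finsupp.single_apply, Pi.single_apply]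
    by_cases hj : i = j
    · subst hj
      simp only [if_true]
      omega
    · rw [if_neg hj, if_neg (Ne.symm hj)]
      omega
  rw [h2]
  congr 1
  rw [one_mul, ← Finset.mul_prod_erase _ _ (Finset.mem_univ i),
    ← Finset.mul_prod_erase _ _ (Finset.mem_univ i), ← mul_assoc]
  congr 1
  · rw [Finsupp.tsub_apply, Finsupp.single_eq_same, Pi.add_apply, Pi.single_eq_same]
    rcases Nat.eq_zero_or_pos (s i) with h | h
    · rw [h]
      simp
    · obtain ⟨t, ht⟩ := Nat.exists_eq_succ_of_ne_zero h.ne'
      rw [ht, Nat.succ_descFactorial_succ, Nat.succ_sub_one]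
      push_cast
      ring
  · refine Finset.prod_congr rfl fun j hj => ?_
    have hji : j ≠ i := Finset.ne_of_mem_erase hj
    rw [Finsupp.tsub_apply, Finsupp.single_eq_of_ne hji, tsub_zero, Pi.add_apply,
      Pi.single_eq_of_ne hji, add_zero]

theorem mul_pd_mem_ops {m : ℕ} {θ : Module.End K (MvPolynomial (Fin n) K)}
    (hθ : θ ∈ ops K n m) (i : Fin n) : θ * pd K i ∈ ops K n (m + 1) := by
  refine ops_induction (p := fun θ => θ ∘ₗ pd K i ∈ ops K n (m + 1)) ?_ ?_ ?_ ?_ hθ
  · rw [LinearMap.zero_comp]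
    exact zero_mem _
  · intro θ θ' h h'
    rw [LinearMap.add_comp]
    exact add_mem h h'
  · intro s θ h
    rw [LinearMap.smul_comp]
    exact Submodule.smul_mem _ s h
  · intro a ha
    have h1 : dpow K a ∘ₗ pd K i = dpow K (a + Pi.single i 1) := dpow_mul_pd a i
    rw [h1]
    refine Submodule.subset_span ⟨_, ?_, rfl⟩
    rw [← ha]
    simp [Finset.sum_add_distrib]

theorem one_mem_ops : (1 : Module.End K (MvPolynomial (Fin n) K)) ∈ ops K n 0 := by
  refine Submodule.subset_span ⟨0, by simp, ?_⟩
  rw [dpow]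
  symm
  apply List.prod_eq_one
  intro x hx
  rw [List.mem_map] at hx
  obtain ⟨i, _, rfl⟩ := hx
  rw [Pi.zero_apply, pow_zero]

theorem pd_pd_pow_mem (i j k : Fin n) (m : ℕ) :
    pd K i * pd K j * pd K k ^ m ∈ ops K n (m + 2) := by
  induction m with
  | zero =>
    rw [pow_zero, mul_one]
    have h1 := mul_pd_mem_ops (one_mem_ops (K := K) (n := n)) i
    rw [one_mul] at h1
    exact mul_pd_mem_ops h1 j
  | succ m ih =>
    rw [pow_succ, ← mul_assoc]
    exact mul_pd_mem_ops ih k

theorem pd_pow_mul_X_pow (i : Fin n) (k : ℕ) (g : MvPolynomial (Fin n) K) (hg : pd K i g = 0) :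
    (pd K i ^ k) (g * X i ^ k) = (k.factorial : MvPolynomial (Fin n) K) * g := by
  induction k with
  | zero => simp
  | succ k ih =>
    rw [pow_succ (pd K i), Module.End.mul_apply]
    have h1 : pd K i (g * X i ^ (k + 1)) = ((k + 1 : ℕ) : K) • (g * X i ^ k) := by
      rw [pd_apply, Derivation.leibniz, Derivation.leibniz_pow, pderiv_X_self]
      rw [pd_apply] at hg
      rw [hg, smul_eq_C_mul]
      simp only [smul_eq_mul, nsmul_eq_mul, Nat.add_sub_cancel, map_natCast]
      ring
    rw [h1, map_smul, ih, smul_eq_C_mul, Nat.factorial_succ, map_natCast]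
    push_cast
    ring

theorem pd_pow_mul_of_pd_eq_zero (i : Fin n) (k : ℕ) (f g : MvPolynomial (Fin n) K)
    (hf : pd K i f = 0) : (pd K i ^ k) (f * g) = f * (pd K i ^ k) g := by
  induction k generalizing g with
  | zero => simp
  | succ k ih =>
    rw [pow_succ, Module.End.mul_apply, Module.End.mul_apply]
    have h1 : pd K i (f * g) = f * pd K i g := by
      rw [pd_apply, Derivation.leibniz]
      rw [pd_apply] at hf
      rw [hf, smul_zero, add_zero, smul_eq_mul]
      rfl
    rw [h1, ih]

end Pool.Agent.Lib.MP_5ef5ec_co
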