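import Pool.Agent.Lib.MP_5ef5ec_co.Neg

/-!
# Non-freeness above a generic point of the flat `x_1 = x_2 = z = 0`, continued
-/

namespace Pool.Agent.Lib.MP_5ef5ec_co

open MvPolynomial

/-- Four distinct variables. -/
structure Vars (n : ℕ) where
  i0 : Fin n
  i1 : Fin n
  iz : Fin n
  iy : Fin n
  h01 : i0 ≠ i1
  h0z : i0 ≠ iz
  h1z : i1 ≠ iz
  h0y : i0 ≠ iy
  h1y : i1 ≠ iy
  hzy : iz ≠ iy

variable (K : Type*) [Field K] {n : ℕ} (V : Vars n)

/-- The linear form with the given integral coefficients. -/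
noncomputable def fm (v : Fin 3 → ℤ) : MvPolynomial (Fin n) K :=
  C (v 0 : K) * X V.i0 + C (v 1 : K) * X V.i1 + C (v 2 : K) * X V.iz

/-- The coefficient vector of `fm`. -/
def emb (v : Fin 3 → ℤ) : Fin n → K :=
  Pi.single V.i0 (v 0 : K) + Pi.single V.i1 (v 1 : K) + Pi.single V.iz (v 2 : K)

variable {K}

theorem lin_add (c d : Fin n → K) : lin (c + d) = lin c + lin d := by
  simp only [lin, Pi.add_apply, C_add, add_mul, Finset.sum_add_distrib]

theorem lin_single (i : Fin n) (r : K) : lin (Pi.single i r) = C r * X i := by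
  rw [lin, Finset.sum_eq_single i]
  · rw [Pi.single_eq_same]
  · intro j _ hj
    rw [Pi.single_eq_of_ne hj, C_0, zero_mul]
  · intro h
    exact absurd (Finset.mem_univ i) h

theorem fm_eq_lin (v : Fin 3 → ℤ) : fm K V v = lin (emb K V v) := by
  rw [emb, lin_add, lin_add, lin_single, lin_single, lin_single, fm]

/-- The directional derivative. -/
noncomputable def dv (v : Fin 3 → ℤ) : Module.End K (MvPolynomial (Fin n) K) :=
  (v 0 : K) • pd K V.i0 + (v 1 : K) • pd K V.i1 + (v 2 : K) • pd K V.iz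

theorem pd_fm_mul (v w : Fin 3 → ℤ) (g : MvPolynomial (Fin n) K) :
    dv V w (fm K V v * g) = C ((dz v w : ℤ) : K) * g + fm K V v * dv V w g := by
  have h1 := V.h01
  have h2 := V.h0z
  have h3 := V.h1z
  have e0 : pd K V.i0 (fm K V v * g) = C (v 0 : K) * g + fm K V v * pd K V.i0 g := by
    simp only [pd_apply, fm, Derivation.leibniz, map_add, pderiv_C, pderiv_X, smul_eq_mul,
      Pi.single_apply, if_neg h1.symm, if_neg h2.symm, if_true]
    ring
  have e1 : pd K V.i1 (fm K V v * g) = C (v 1 : K) * g + fm K V v * pd K V.i1 g := by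
    simp only [pd_apply, fm, Derivation.leibniz, map_add, pderiv_C, pderiv_X, smul_eq_mul,
      Pi.single_apply, if_neg h1, if_neg h3.symm, if_true]
    ring
  have e2 : pd K V.iz (fm K V v * g) = C (v 2 : K) * g + fm K V v * pd K V.iz g := by
    simp only [pd_apply, fm, Derivation.leibniz, map_add, pderiv_C, pderiv_X, smul_eq_mul,
      Pi.single_apply, if_neg h2, if_neg h3, if_true]
    ring
  simp only [dv, LinearMap.add_apply, LinearMap.smul_apply, e0, e1, e2, smul_eq_C_mul, dz]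
  push_cast
  simp only [C_add, C_mul]
  ring

theorem pd_iy_fm (v : Fin 3 → ℤ) : pd K V.iy (fm K V v) = 0 := by
  simp only [pd_apply, fm, Derivation.leibniz, map_add, pderiv_C, pderiv_X, smul_eq_mul,
      Pi.single_apply, if_neg V.h0y, if_neg V.h1y, if_neg V.hzy]
  simp

theorem dv_const (v : Fin 3 → ℤ) (r : K) : dv V v (C r) = 0 := by
  simp [dv, pd_apply]

theorem dv_dv_fm_mul (v w : Fin 3 → ℤ) (g : MvPolynomial (Fin n) K) :
    dv V w (dv V w (fm K V v * g)) =
      C (2 * ((dz v w : ℤ) : K)) * dv V w g + fm K V v * dv V w (dv V w g) := by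
  rw [pd_fm_mul, map_add, pd_fm_mul, ← smul_eq_C_mul, map_smul, smul_eq_C_mul, two_mul, C_add]
  ring

theorem dv_dv_fm_fm (u v w : Fin 3 → ℤ) :
    dv V w (dv V w (fm K V u * fm K V v)) =
      C (2 * ((dz u w : ℤ) : K) * ((dz v w : ℤ) : K)) := by
  have h1 : dv V w (fm K V v) = C ((dz v w : ℤ) : K) := by
    have := pd_fm_mul V v w (1 : MvPolynomial (Fin n) K)
    rw [mul_one, mul_one] at this
    rw [this, ← C_1, dv_const, mul_zero, add_zero]
  rw [dv_dv_fm_mul, h1, dv_const, mul_zero, add_zero, ← C_mul]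

/-- The second order operator `(∂_v)^2 ∂_y^m`. -/
noncomputable def DD (v : Fin 3 → ℤ) (m : ℕ) : Module.End K (MvPolynomial (Fin n) K) :=
  dv V v * dv V v * pd K V.iy ^ m

theorem DD_apply (v : Fin 3 → ℤ) (m : ℕ) (g : MvPolynomial (Fin n) K) :
    DD V v m g = dv V v (dv V v ((pd K V.iy ^ m) g)) := rfl

theorem smul_K_mem_ops {m : ℕ} {θ : Module.End K (MvPolynomial (Fin n) K)}
    (hθ : θ ∈ ops K n m) (r : K) : r • θ ∈ ops K n m := by
  have h1 : r • θ = (C r : MvPolynomial (Fin n) K) •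
      (θ : MvPolynomial (Fin n) K →ₗ[K] MvPolynomial (Fin n) K) := by
    refine LinearMap.ext fun f => ?_
    rw [LinearMap.smul_apply, LinearMap.smul_apply, smul_eq_C_mul, smul_eq_mul]
  rw [h1]
  exact Submodule.smul_mem _ _ hθ

theorem mul_dv_mem {m : ℕ} {θ : Module.End K (MvPolynomial (Fin n) K)}
    (hθ : θ ∈ ops K n m) (v : Fin 3 → ℤ) : θ * dv V v ∈ ops K n (m + 1) := by
  rw [dv, mul_add, mul_add, mul_smul_comm, mul_smul_comm, mul_smul_comm]
  exact add_mem (add_mem (smul_K_mem_ops (mul_pd_mem_ops hθ _) _)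
    (smul_K_mem_ops (mul_pd_mem_ops hθ _) _)) (smul_K_mem_ops (mul_pd_mem_ops hθ _) _)

theorem DD_mem (v : Fin 3 → ℤ) (m : ℕ) : DD V v m ∈ ops K n (m + 2) := by
  induction m with
  | zero =>
    rw [DD, pow_zero, mul_one]
    have h1 := mul_dv_mem V (one_mem_ops (K := K) (n := n)) v
    rw [one_mul] at h1
    exact mul_dv_mem V h1 v
  | succ m ih =>
    rw [DD, pow_succ, ← mul_assoc]
    exact mul_pd_mem_ops ih _

theorem DD_fm_mul (v w : Fin 3 → ℤ) (m : ℕ) (g : MvPolynomial (Fin n) K) :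
    DD V w m (fm K V v * g) =
      C (2 * ((dz v w : ℤ) : K)) * dv V w ((pd K V.iy ^ m) g) + fm K V v * DD V w m g := by
  rw [DD_apply, pd_pow_mul_of_pd_eq_zero _ _ _ _ (pd_iy_fm V v), dv_dv_fm_mul, DD_apply]

theorem DD_fm_fm (u v w : Fin 3 → ℤ) (m : ℕ) :
    DD V w m (fm K V u * fm K V v * X V.iy ^ m) =
      (m.factorial : MvPolynomial (Fin n) K) *
        C (2 * ((dz u w : ℤ) : K) * ((dz v w : ℤ) : K)) := by
  have h1 : pd K V.iy (fm K V u * fm K V v) = 0 := by
    rw [pd_apply, Derivation.leibniz, ← pd_apply, ← pd_apply, pd_iy_fm, pd_iy_fm, smul_zero,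
      smul_zero, add_zero]
  rw [DD_apply, pd_pow_mul_X_pow _ _ _ h1]
  have h2 : (m.factorial : MvPolynomial (Fin n) K) * (fm K V u * fm K V v) =
      (m.factorial : K) • (fm K V u * fm K V v) := by
    rw [smul_eq_C_mul, map_natCast]
  rw [h2, map_smul, map_smul, dv_dv_fm_fm, smul_eq_C_mul, map_natCast]

theorem term_dvd {i : Fin 3 → ℤ} {c : MvPolynomial (Fin n) K} {w : Fin 3 → ℤ}
    (h : dz i w = 0 ∨ fm K V i ∣ c) (m : ℕ) (g : MvPolynomial (Fin n) K) :
    fm K V i ∣ c * DD V w m (fm K V i * g) := by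
  rw [DD_fm_mul, mul_add]
  refine dvd_add ?_ (Dvd.dvd.mul_left (Dvd.intro _ rfl) _)
  rcases h with h | h
  · rw [h, Int.cast_zero, mul_zero, C_0, zero_mul, mul_zero]
    exact dvd_zero _
  · exact Dvd.dvd.mul_right h _

end Pool.Agent.Lib.MP_5ef5ec_co
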