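import Pool.Agent.Lib.MP_5ef5ec_co.Neg2

/-!
# Non-freeness above a generic point of the flat `x_1 = x_2 = z = 0`, conclusion
-/

namespace Pool.Agent.Lib.MP_5ef5ec_co

open MvPolynomial

variable {K : Type*} [Field K] {n : ℕ} (V : Vars n)

/-- Restriction to a line through the point `P`. -/
noncomputable def eh (P : Fin n → K) (w : Fin 3 → ℤ) :
    MvPolynomial (Fin n) K →ₐ[K] Polynomial K :=
  aeval fun j => if j = V.i0 then Polynomial.C (w 0 : K) * Polynomial.X
    else if j = V.i1 then Polynomial.C (w 1 : K) * Polynomial.X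
    else if j = V.iz then Polynomial.C (w 2 : K) * Polynomial.X else Polynomial.C (P j)

theorem eh_fm (P : Fin n → K) (v w : Fin 3 → ℤ) :
    eh V P w (fm K V v) = Polynomial.C ((dz v w : ℤ) : K) * Polynomial.X := by
  have hC : ∀ r : K, eh V P w (C r) = Polynomial.C r := fun r => by
    rw [← algebraMap_eq, AlgHom.commutes]
    rfl
  have e0 : eh V P w (X V.i0) = Polynomial.C (w 0 : K) * Polynomial.X := by
    rw [eh, aeval_X, if_pos rfl]
  have e1 : eh V P w (X V.i1) = Polynomial.C (w 1 : K) * Polynomial.X := by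
    rw [eh, aeval_X, if_neg V.h01.symm, if_pos rfl]
  have e2 : eh V P w (X V.iz) = Polynomial.C (w 2 : K) * Polynomial.X := by
    rw [eh, aeval_X, if_neg V.h0z.symm, if_neg V.h1z.symm, if_pos rfl]
  rw [fm, map_add, map_add, map_mul, map_mul, map_mul, hC, hC, hC, e0, e1, e2, dz]
  push_cast
  simp only [map_add, map_mul]
  ring

theorem eh_eval {P : Fin n → K} (h0 : P V.i0 = 0) (h1 : P V.i1 = 0) (h2 : P V.iz = 0)
    (w : Fin 3 → ℤ) (f : MvPolynomial (Fin n) K) : (eh V P w f).eval 0 = eval P f := by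
  have h : (Polynomial.evalRingHom (0 : K)).comp (eh V P w).toRingHom = eval P := by
    apply MvPolynomial.ringHom_ext
    · intro r
      simp [eh]
    · intro j
      simp only [RingHom.coe_comp, Function.comp_apply, eval_X]
      change Polynomial.eval 0 (eh V P w (X j)) = P j
      rw [eh, aeval_X]
      by_cases hj0 : j = V.i0
      · rw [if_pos hj0, hj0, h0]
        simp
      · rw [if_neg hj0]
        by_cases hj1 : j = V.i1
        · rw [if_pos hj1, hj1, h1]
          simp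
        · rw [if_neg hj1]
          by_cases hj2 : j = V.iz
          · rw [if_pos hj2, hj2, h2]
            simp
          · rw [if_neg hj2]
            simp
  exact congrArg (fun F : MvPolynomial (Fin n) K →+* K => F f) h

/-- Points on exactly one of the seven planes. -/
def vpt : Fin 7 → Fin 3 → ℤ :=
  ![![3, 1, 0], ![0, -1, -3], ![1, 2, 1], ![3, 0, 1], ![2, -1, -1], ![2, 2, 1], ![2, 3, -1]]

theorem dz_vpt : ∀ i j : Fin 7, dz (cz j) (vpt i) = 0 ↔ j = i := by decide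

variable [CharZero K]

theorem eh_vpt_ne {P : Fin n → K} {i j : Fin 7} (hij : j ≠ i) :
    eh V P (vpt i) (fm K V (cz j)) ≠ 0 := by
  rw [eh_fm]
  refine mul_ne_zero ?_ Polynomial.X_ne_zero
  rw [Polynomial.C_ne_zero, Int.cast_ne_zero]
  exact fun h => hij ((dz_vpt i j).mp h)

omit [CharZero K] in
theorem eh_vpt_self {P : Fin n → K} (i : Fin 7) :
    eh V P (vpt i) (fm K V (cz i)) = 0 := by
  rw [eh_fm, (dz_vpt i i).mpr rfl, Int.cast_zero, Polynomial.C_0, zero_mul]

theorem prime_fm (i : Fin 7) : Prime (fm K V (cz i)) := by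
  rw [fm_eq_lin]
  apply prime_lin
  intro h0
  have h1 : fm K V (cz i) = 0 := by
    rw [fm_eq_lin, h0]
    simp [lin]
  have h : ∀ i : Fin 7, ∃ j : Fin 7, j ≠ i := by decide
  obtain ⟨j, hj⟩ := h i
  exact eh_vpt_ne V (P := (0 : Fin n → K)) hj.symm (by rw [h1, map_zero])

theorem fm_not_dvd {i j : Fin 7} (hij : j ≠ i) : ¬ fm K V (cz i) ∣ fm K V (cz j) := by
  rintro ⟨q, hq⟩
  apply eh_vpt_ne V (P := (0 : Fin n → K)) hij
  rw [hq, map_mul, eh_vpt_self, zero_mul]

theorem fm_not_dvd_rest {P : Fin n → K} (h0 : P V.i0 = 0) (h1 : P V.i1 = 0) (h2 : P V.iz = 0)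
    {Q' : MvPolynomial (Fin n) K} (hQ' : eval P Q' ≠ 0) (i : Fin 7) :
    ¬ fm K V (cz i) ∣ (∏ j ∈ Finset.univ.erase i, fm K V (cz j)) * Q' := by
  rintro ⟨q, hq⟩
  have h3 := congrArg (eh V P (vpt i)) hq
  rw [map_mul, map_mul, eh_vpt_self, zero_mul, map_prod] at h3
  rcases mul_eq_zero.mp h3 with h4 | h4
  · rw [Finset.prod_eq_zero_iff] at h4
    obtain ⟨j, hj, h5⟩ := h4
    exact eh_vpt_ne V (Finset.ne_of_mem_erase hj) h5
  · apply hQ'
    rw [← eh_eval V h0 h1 h2 (vpt i), h4, Polynomial.eval_zero]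

theorem fm_dvd_of_mem {P : Fin n → K} (h0 : P V.i0 = 0) (h1 : P V.i1 = 0) (h2 : P V.iz = 0)
    {Q' : MvPolynomial (Fin n) K} (hQ' : eval P Q' ≠ 0) {m : ℕ}
    {θ : MvPolynomial (Fin n) K →ₗ[K] MvPolynomial (Fin n) K}
    (hθ : θ ∈ logOps ((∏ i : Fin 7, fm K V (cz i)) * Q') m) (i : Fin 7)
    (g : MvPolynomial (Fin n) K) : fm K V (cz i) ∣ θ (fm K V (cz i) * g) := by
  refine dvd_of_mem_logOps (prime_fm V i) (fm_not_dvd_rest V h0 h1 h2 hQ' i)
    (fm_eq_lin V (cz i)) hθ.1 ?_ g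
  intro f
  rw [← mul_assoc, Finset.mul_prod_erase _ (fun j => fm K V (cz j)) (Finset.mem_univ i)]
  refine Dvd.dvd.trans ?_ (hθ.2 f)
  exact Dvd.dvd.mul_right (Finset.dvd_prod_of_mem (fun j => fm K V (cz j)) (Finset.mem_univ i)) _

theorem mem_logOps_of_dvd (Q' : MvPolynomial (Fin n) K) {m : ℕ}
    {θ : MvPolynomial (Fin n) K →ₗ[K] MvPolynomial (Fin n) K} (hθ : θ ∈ ops K n m)
    (h : ∀ (i : Fin 7) (g : MvPolynomial (Fin n) K),
      fm K V (cz i) ∣ θ (fm K V (cz i) * g)) :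
    Q' • θ ∈ logOps ((∏ i : Fin 7, fm K V (cz i)) * Q') m := by
  refine ⟨Submodule.smul_mem _ _ hθ, fun f => ?_⟩
  have key : ∏ i : Fin 7, fm K V (cz i) ∣ θ ((∏ i : Fin 7, fm K V (cz i)) * Q' * f) := by
    refine Finset.prod_dvd_of_isRelPrime ?_ ?_
    · intro i _ j _ hij
      exact (prime_fm V i).irreducible.isRelPrime_iff_not_dvd.mpr (fm_not_dvd V (Ne.symm hij))
    · intro i _
      rw [← Finset.mul_prod_erase _ (fun j => fm K V (cz j)) (Finset.mem_univ i), mul_assoc,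
        mul_assoc]
      exact h i _
  rw [LinearMap.smul_apply, smul_eq_mul, mul_comm _ Q']
  exact mul_dvd_mul_left Q' (by rw [mul_comm Q']; exact key)

end Pool.Agent.Lib.MP_5ef5ec_co
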