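import Pool.Agent.Lib.MP_5ef5ec_co.Neg3

/-!
# Non-freeness for `ℓ ≥ 3`
-/

namespace Pool.Agent.Lib.MP_5ef5ec_co

open MvPolynomial

section

variable {K : Type*} [Field K] {n : ℕ} (V : Vars n)

theorem C_two' : (C (2 : K) : MvPolynomial (Fin n) K) = 2 := map_ofNat C 2

theorem fm2 : fm K V (cz 2) = fm K V (cz 1) - fm K V (cz 0) := by
  simp [fm, cz]
  ring

theorem fm4 : fm K V (cz 4) = fm K V (cz 3) - fm K V (cz 0) := by
  simp [fm, cz]
  ring

theorem fm5 : fm K V (cz 5) = fm K V (cz 1) - fm K V (cz 3) := by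
  simp [fm, cz]
  ring

theorem fm6 : fm K V (cz 6) = fm K V (cz 1) - fm K V (cz 3) - fm K V (cz 0) := by
  simp [fm, cz]
  ring

theorem fm0 : fm K V (cz 0) = X V.iz := by
  simp [fm, cz]

theorem fm1 : fm K V (cz 1) = X V.i0 := by
  simp [fm, cz]

theorem fm3 : fm K V (cz 3) = X V.i1 := by
  simp [fm, cz]

/-- The element `w`. -/
noncomputable def Wop (m : ℕ) : MvPolynomial (Fin n) K →ₗ[K] MvPolynomial (Fin n) K :=
  (fm K V (cz 1) * fm K V (cz 4) * (fm K V (cz 3) * fm K V (cz 5))) • DD V ![0, 1, 0] m +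
  (fm K V (cz 1) * fm K V (cz 4) * (fm K V (cz 0) * fm K V (cz 2))) • DD V ![0, 0, 1] m -
  (fm K V (cz 1) * fm K V (cz 4) * (fm K V (cz 3) * fm K V (cz 0))) • DD V ![1, 1, 1] m -
  (fm K V (cz 1) * fm K V (cz 4) * (fm K V (cz 5) * fm K V (cz 2))) • DD V ![1, 0, 0] m

/-- The element `u`. -/
noncomputable def Uop (m : ℕ) : MvPolynomial (Fin n) K →ₗ[K] MvPolynomial (Fin n) K :=
  (fm K V (cz 4) * fm K V (cz 6) * (fm K V (cz 3) * fm K V (cz 5))) • DD V ![0, 1, 0] m +
  (fm K V (cz 4) * fm K V (cz 6) * (fm K V (cz 0) * fm K V (cz 2))) • DD V ![0, 0, 1] m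

/-- The element `v`. -/
noncomputable def Vop (m : ℕ) : MvPolynomial (Fin n) K →ₗ[K] MvPolynomial (Fin n) K :=
  -((fm K V (cz 6) * fm K V (cz 1) * (fm K V (cz 3) * fm K V (cz 0))) • DD V ![1, 1, 1] m) -
  (fm K V (cz 6) * fm K V (cz 1) * (fm K V (cz 5) * fm K V (cz 2))) • DD V ![1, 0, 0] m

theorem Wop_apply (m : ℕ) (g : MvPolynomial (Fin n) K) : Wop V m g =
    (fm K V (cz 1) * fm K V (cz 4) * (fm K V (cz 3) * fm K V (cz 5))) * DD V ![0, 1, 0] m g +
    (fm K V (cz 1) * fm K V (cz 4) * (fm K V (cz 0) * fm K V (cz 2))) * DD V ![0, 0, 1] m g -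
    (fm K V (cz 1) * fm K V (cz 4) * (fm K V (cz 3) * fm K V (cz 0))) * DD V ![1, 1, 1] m g -
    (fm K V (cz 1) * fm K V (cz 4) * (fm K V (cz 5) * fm K V (cz 2))) * DD V ![1, 0, 0] m g := rfl

theorem Uop_apply (m : ℕ) (g : MvPolynomial (Fin n) K) : Uop V m g =
    (fm K V (cz 4) * fm K V (cz 6) * (fm K V (cz 3) * fm K V (cz 5))) * DD V ![0, 1, 0] m g +
    (fm K V (cz 4) * fm K V (cz 6) * (fm K V (cz 0) * fm K V (cz 2))) * DD V ![0, 0, 1] m g := rfl

theorem Vop_apply (m : ℕ) (g : MvPolynomial (Fin n) K) : Vop V m g =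
    -((fm K V (cz 6) * fm K V (cz 1) * (fm K V (cz 3) * fm K V (cz 0))) *
      DD V ![1, 1, 1] m g) -
    (fm K V (cz 6) * fm K V (cz 1) * (fm K V (cz 5) * fm K V (cz 2))) * DD V ![1, 0, 0] m g := rfl

theorem Wop_mem (m : ℕ) : Wop V m ∈ ops K n (m + 2) :=
  sub_mem (sub_mem (add_mem (Submodule.smul_mem _ _ (DD_mem V _ m))
    (Submodule.smul_mem _ _ (DD_mem V _ m))) (Submodule.smul_mem _ _ (DD_mem V _ m)))
    (Submodule.smul_mem _ _ (DD_mem V _ m))

theorem Uop_mem (m : ℕ) : Uop V m ∈ ops K n (m + 2) :=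
  add_mem (Submodule.smul_mem _ _ (DD_mem V _ m)) (Submodule.smul_mem _ _ (DD_mem V _ m))

theorem Vop_mem (m : ℕ) : Vop V m ∈ ops K n (m + 2) :=
  sub_mem (neg_mem (Submodule.smul_mem _ _ (DD_mem V _ m)))
    (Submodule.smul_mem _ _ (DD_mem V _ m))

theorem rel_WUV (m : ℕ) (g : MvPolynomial (Fin n) K) :
    fm K V (cz 6) * Wop V m g = fm K V (cz 1) * Uop V m g + fm K V (cz 4) * Vop V m g := by
  rw [Wop_apply, Uop_apply, Vop_apply]
  ring

theorem Uop_dvd (m : ℕ) (i : Fin 7) (g : MvPolynomial (Fin n) K) :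
    fm K V (cz i) ∣ Uop V m (fm K V (cz i) * g) := by
  rw [Uop_apply]
  fin_cases i
  · exact dvd_add (term_dvd V (Or.inl (by decide)) m g)
      (term_dvd V (Or.inr (Dvd.intro (fm K V (cz 4) * fm K V (cz 6) * fm K V (cz 2))
        (by simp only [Fin.zero_eta]; ring))) m g)
  · exact dvd_add (term_dvd V (Or.inl (by decide)) m g)
      (term_dvd V (Or.inl (by decide)) m g)
  · exact dvd_add (term_dvd V (Or.inl (by decide)) m g)
      (term_dvd V (Or.inr (Dvd.intro (fm K V (cz 4) * fm K V (cz 6) * fm K V (cz 0))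
        (by simp only [Fin.reduceFinMk]; ring))) m g)
  · exact dvd_add (term_dvd V (Or.inr (Dvd.intro (fm K V (cz 4) * fm K V (cz 6) * fm K V (cz 5))
        (by simp only [Fin.reduceFinMk]; ring))) m g) (term_dvd V (Or.inl (by decide)) m g)
  · exact dvd_add (term_dvd V (Or.inr (Dvd.intro (fm K V (cz 6) * (fm K V (cz 3) *
        fm K V (cz 5))) (by simp only [Fin.reduceFinMk]; ring))) m g)
        (term_dvd V (Or.inr (Dvd.intro (fm K V (cz 6) * (fm K V (cz 0) *
        fm K V (cz 2))) (by simp only [Fin.reduceFinMk]; ring))) m g)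
  · exact dvd_add (term_dvd V (Or.inr (Dvd.intro (fm K V (cz 4) * fm K V (cz 6) * fm K V (cz 3))
        (by simp only [Fin.reduceFinMk]; ring))) m g) (term_dvd V (Or.inl (by decide)) m g)
  · exact dvd_add (term_dvd V (Or.inr (Dvd.intro (fm K V (cz 4) * (fm K V (cz 3) *
        fm K V (cz 5))) (by simp only [Fin.reduceFinMk]; ring))) m g)
        (term_dvd V (Or.inr (Dvd.intro (fm K V (cz 4) * (fm K V (cz 0) *
        fm K V (cz 2))) (by simp only [Fin.reduceFinMk]; ring))) m g)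

theorem Vop_dvd (m : ℕ) (i : Fin 7) (g : MvPolynomial (Fin n) K) :
    fm K V (cz i) ∣ Vop V m (fm K V (cz i) * g) := by
  rw [Vop_apply]
  fin_cases i
  · exact dvd_sub (dvd_neg.mpr (term_dvd V (Or.inr (Dvd.intro (fm K V (cz 6) * fm K V (cz 1) *
        fm K V (cz 3)) (by simp only [Fin.zero_eta]; ring))) m g))
      (term_dvd V (Or.inl (by decide)) m g)
  · exact dvd_sub (dvd_neg.mpr (term_dvd V (Or.inr (Dvd.intro (fm K V (cz 6) * (fm K V (cz 3) *
        fm K V (cz 0))) (by simp only [Fin.mk_one]; ring))) m g))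
      (term_dvd V (Or.inr (Dvd.intro (fm K V (cz 6) * (fm K V (cz 5) *
        fm K V (cz 2))) (by simp only [Fin.mk_one]; ring))) m g)
  · exact dvd_sub (dvd_neg.mpr (term_dvd V (Or.inl (by decide)) m g))
      (term_dvd V (Or.inr (Dvd.intro (fm K V (cz 6) * fm K V (cz 1) * fm K V (cz 5))
        (by simp only [Fin.reduceFinMk]; ring))) m g)
  · exact dvd_sub (dvd_neg.mpr (term_dvd V (Or.inr (Dvd.intro (fm K V (cz 6) * fm K V (cz 1) *
        fm K V (cz 0)) (by simp only [Fin.reduceFinMk]; ring))) m g))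
      (term_dvd V (Or.inl (by decide)) m g)
  · exact dvd_sub (dvd_neg.mpr (term_dvd V (Or.inl (by decide)) m g))
      (term_dvd V (Or.inl (by decide)) m g)
  · exact dvd_sub (dvd_neg.mpr (term_dvd V (Or.inl (by decide)) m g))
      (term_dvd V (Or.inr (Dvd.intro (fm K V (cz 6) * fm K V (cz 1) * fm K V (cz 2))
        (by simp only [Fin.reduceFinMk]; ring))) m g)
  · exact dvd_sub (dvd_neg.mpr (term_dvd V (Or.inr (Dvd.intro (fm K V (cz 1) * (fm K V (cz 3) *
        fm K V (cz 0))) (by simp only [Fin.reduceFinMk]; ring))) m g))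
      (term_dvd V (Or.inr (Dvd.intro (fm K V (cz 1) * (fm K V (cz 5) *
        fm K V (cz 2))) (by simp only [Fin.reduceFinMk]; ring))) m g)

theorem Wop_dvd_six (m : ℕ) (g : MvPolynomial (Fin n) K) :
    fm K V (cz 6) ∣ Wop V m (fm K V (cz 6) * g) := by
  set h := (pd K V.iy ^ m) g with hh
  have d1 : dz (cz 6) ![0, 1, 0] = -1 := by decide
  have d2 : dz (cz 6) ![0, 0, 1] = -1 := by decide
  have d3 : dz (cz 6) ![1, 1, 1] = -1 := by decide
  have d4 : dz (cz 6) ![1, 0, 0] = 1 := by decide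
  have h111 : dv V ![1, 1, 1] h = dv V ![1, 0, 0] h + dv V ![0, 1, 0] h + dv V ![0, 0, 1] h := by
    simp [dv]
  rw [Wop_apply, DD_fm_mul, DD_fm_mul, DD_fm_mul, DD_fm_mul, d1, d2, d3, d4, ← hh, h111]
  refine ⟨Wop V m g - 2 * fm K V (cz 1) * fm K V (cz 4) * (fm K V (cz 3) * dv V ![0, 1, 0] h +
    fm K V (cz 0) * dv V ![0, 0, 1] h + fm K V (cz 1) * dv V ![1, 0, 0] h), ?_⟩
  rw [Wop_apply, fm2, fm4, fm5, fm6]
  have c1 : (C (2 * ((-1 : ℤ) : K)) : MvPolynomial (Fin n) K) = -2 := by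
    simp [C_two']
  have c2 : (C (2 * ((1 : ℤ) : K)) : MvPolynomial (Fin n) K) = 2 := by
    simp [C_two']
  rw [c1, c2]
  ring

theorem Wop_dvd (m : ℕ) (i : Fin 7) (g : MvPolynomial (Fin n) K) :
    fm K V (cz i) ∣ Wop V m (fm K V (cz i) * g) := by
  by_cases h6 : i = 6
  · rw [h6]
    exact Wop_dvd_six V m g
  rw [Wop_apply]
  fin_cases i
  · exact dvd_sub (dvd_sub (dvd_add (term_dvd V (Or.inl (by decide)) m g)
      (term_dvd V (Or.inr (Dvd.intro (fm K V (cz 1) * fm K V (cz 4) * fm K V (cz 2))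
        (by simp only [Fin.zero_eta]; ring))) m g))
      (term_dvd V (Or.inr (Dvd.intro (fm K V (cz 1) * fm K V (cz 4) * fm K V (cz 3))
        (by simp only [Fin.zero_eta]; ring))) m g))
      (term_dvd V (Or.inl (by decide)) m g)
  · exact dvd_sub (dvd_sub (dvd_add (term_dvd V (Or.inl (by decide)) m g)
      (term_dvd V (Or.inl (by decide)) m g))
      (term_dvd V (Or.inr (Dvd.intro (fm K V (cz 4) * (fm K V (cz 3) * fm K V (cz 0)))
        (by simp only [Fin.mk_one]; ring))) m g))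
      (term_dvd V (Or.inr (Dvd.intro (fm K V (cz 4) * (fm K V (cz 5) * fm K V (cz 2)))
        (by simp only [Fin.mk_one]; ring))) m g)
  · exact dvd_sub (dvd_sub (dvd_add (term_dvd V (Or.inl (by decide)) m g)
      (term_dvd V (Or.inr (Dvd.intro (fm K V (cz 1) * fm K V (cz 4) * fm K V (cz 0))
        (by simp only [Fin.reduceFinMk]; ring))) m g))
      (term_dvd V (Or.inl (by decide)) m g))
      (term_dvd V (Or.inr (Dvd.intro (fm K V (cz 1) * fm K V (cz 4) * fm K V (cz 5))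
        (by simp only [Fin.reduceFinMk]; ring))) m g)
  · exact dvd_sub (dvd_sub (dvd_add
      (term_dvd V (Or.inr (Dvd.intro (fm K V (cz 1) * fm K V (cz 4) * fm K V (cz 5))
        (by simp only [Fin.reduceFinMk]; ring))) m g)
      (term_dvd V (Or.inl (by decide)) m g))
      (term_dvd V (Or.inr (Dvd.intro (fm K V (cz 1) * fm K V (cz 4) * fm K V (cz 0))
        (by simp only [Fin.reduceFinMk]; ring))) m g))
      (term_dvd V (Or.inl (by decide)) m g)
  · exact dvd_sub (dvd_sub (dvd_add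
      (term_dvd V (Or.inr (Dvd.intro (fm K V (cz 1) * (fm K V (cz 3) * fm K V (cz 5)))
        (by simp only [Fin.reduceFinMk]; ring))) m g)
      (term_dvd V (Or.inr (Dvd.intro (fm K V (cz 1) * (fm K V (cz 0) * fm K V (cz 2)))
        (by simp only [Fin.reduceFinMk]; ring))) m g))
      (term_dvd V (Or.inr (Dvd.intro (fm K V (cz 1) * (fm K V (cz 3) * fm K V (cz 0)))
        (by simp only [Fin.reduceFinMk]; ring))) m g))
      (term_dvd V (Or.inr (Dvd.intro (fm K V (cz 1) * (fm K V (cz 5) * fm K V (cz 2)))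
        (by simp only [Fin.reduceFinMk]; ring))) m g)
  · exact dvd_sub (dvd_sub (dvd_add
      (term_dvd V (Or.inr (Dvd.intro (fm K V (cz 1) * fm K V (cz 4) * fm K V (cz 3))
        (by simp only [Fin.reduceFinMk]; ring))) m g)
      (term_dvd V (Or.inl (by decide)) m g))
      (term_dvd V (Or.inl (by decide)) m g))
      (term_dvd V (Or.inr (Dvd.intro (fm K V (cz 1) * fm K V (cz 4) * fm K V (cz 2))
        (by simp only [Fin.reduceFinMk]; ring))) m g)
  · exact absurd rfl h6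

theorem Wop_ab (m : ℕ) : Wop V m (fm K V (cz 1) * fm K V (cz 4) * X V.iy ^ m) = 0 := by
  have e1 : dz (cz 1) ![0, 1, 0] = 0 := by decide
  have e2 : dz (cz 1) ![0, 0, 1] = 0 := by decide
  have e3 : dz (cz 4) ![1, 1, 1] = 0 := by decide
  have e4 : dz (cz 4) ![1, 0, 0] = 0 := by decide
  rw [Wop_apply, DD_fm_fm, DD_fm_fm, DD_fm_fm, DD_fm_fm, e1, e2, e3, e4]
  simp

theorem Wop_bc (m : ℕ) : Wop V m (fm K V (cz 4) * fm K V (cz 6) * X V.iy ^ m) =
    -(2 * (m.factorial : MvPolynomial (Fin n) K)) * (fm K V (cz 1) * fm K V (cz 4)) *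
      (fm K V (cz 4) * fm K V (cz 6)) := by
  have e1 : dz (cz 4) ![0, 1, 0] = 1 := by decide
  have e1' : dz (cz 6) ![0, 1, 0] = -1 := by decide
  have e2 : dz (cz 4) ![0, 0, 1] = -1 := by decide
  have e2' : dz (cz 6) ![0, 0, 1] = -1 := by decide
  have e3 : dz (cz 4) ![1, 1, 1] = 0 := by decide
  have e4 : dz (cz 4) ![1, 0, 0] = 0 := by decide
  rw [Wop_apply, DD_fm_fm, DD_fm_fm, DD_fm_fm, DD_fm_fm, e1, e1', e2, e2', e3, e4, fm2, fm4, fm5,
    fm6]
  have c1 : (C (2 * ((1 : ℤ) : K) * ((-1 : ℤ) : K)) : MvPolynomial (Fin n) K) = -2 := by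
    simp [C_two']
  have c2 : (C (2 * ((-1 : ℤ) : K) * ((-1 : ℤ) : K)) : MvPolynomial (Fin n) K) = 2 := by
    simp [C_two']
  have c3 : ∀ x : ℤ, (C (2 * ((0 : ℤ) : K) * (x : K)) : MvPolynomial (Fin n) K) = 0 := by
    simp
  rw [c1, c2, c3, c3]
  ring

theorem Wop_ca (m : ℕ) : Wop V m (fm K V (cz 6) * fm K V (cz 1) * X V.iy ^ m) =
    -(2 * (m.factorial : MvPolynomial (Fin n) K)) * (fm K V (cz 1) * fm K V (cz 4)) *
      (fm K V (cz 6) * fm K V (cz 1)) := by
  have e1 : dz (cz 1) ![0, 1, 0] = 0 := by decide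
  have e2 : dz (cz 1) ![0, 0, 1] = 0 := by decide
  have e3 : dz (cz 6) ![1, 1, 1] = -1 := by decide
  have e3' : dz (cz 1) ![1, 1, 1] = 1 := by decide
  have e4 : dz (cz 6) ![1, 0, 0] = 1 := by decide
  have e4' : dz (cz 1) ![1, 0, 0] = 1 := by decide
  rw [Wop_apply, DD_fm_fm, DD_fm_fm, DD_fm_fm, DD_fm_fm, e1, e2, e3, e3', e4, e4', fm2, fm4, fm5,
    fm6]
  have c1 : (C (2 * ((-1 : ℤ) : K) * ((1 : ℤ) : K)) : MvPolynomial (Fin n) K) = -2 := by
    simp [C_two']
  have c2 : (C (2 * ((1 : ℤ) : K) * ((1 : ℤ) : K)) : MvPolynomial (Fin n) K) = 2 := by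
    simp [C_two']
  have c3 : ∀ x : ℤ, (C (2 * (x : K) * ((0 : ℤ) : K)) : MvPolynomial (Fin n) K) = 0 := by
    simp
  rw [c1, c2, c3, c3]
  ring

/-- The regular sequence property. -/
theorem regular_abc [CharZero K] (s : MvPolynomial (Fin n) K)
    (h : ∃ g g', fm K V (cz 6) * s = fm K V (cz 1) * g + fm K V (cz 4) * g') :
    ∃ g g', s = fm K V (cz 1) * g + fm K V (cz 4) * g' := by
  let ε : MvPolynomial (Fin n) K →ₐ[K] MvPolynomial (Fin n) K :=
    aeval fun j => if j = V.i0 then 0 else if j = V.i1 then X V.iz else X j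
  have e0 : ε (X V.i0) = 0 := by
    simp only [ε, aeval_X, if_true]
  have e1 : ε (X V.i1) = X V.iz := by
    simp only [ε, aeval_X, if_neg V.h01.symm, if_true]
  have e2 : ε (X V.iz) = X V.iz := by
    simp only [ε, aeval_X, if_neg V.h0z.symm, if_neg V.h1z.symm]
  have ej : ∀ j, j ≠ V.i0 → j ≠ V.i1 → ε (X j) = X j := by
    intro j hj0 hj1
    simp only [ε, aeval_X, if_neg hj0, if_neg hj1]
  set I : Ideal (MvPolynomial (Fin n) K) := Ideal.span {fm K V (cz 1), fm K V (cz 4)} with hI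
  have h1 : ∀ f, f - ε f ∈ I := by
    intro f
    have h2 : (Ideal.Quotient.mkₐ K I).comp ε = Ideal.Quotient.mkₐ K I := by
      apply MvPolynomial.algHom_ext
      intro j
      rw [AlgHom.comp_apply]
      by_cases hj0 : j = V.i0
      · rw [hj0, e0, map_zero]
        symm
        refine Ideal.Quotient.eq_zero_iff_mem.mpr (Ideal.subset_span ?_)
        left
        rw [fm1]
      · by_cases hj1 : j = V.i1
        · rw [hj1, e1]
          symm
          refine Ideal.Quotient.eq.mpr (Ideal.subset_span ?_)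
          right
          rw [Set.mem_singleton_iff, fm4, fm3, fm0]
        · rw [ej j hj0 hj1]
    have h3 := congrArg (fun F : MvPolynomial (Fin n) K →ₐ[K] _ => F f) h2
    rw [← Ideal.Quotient.eq]
    exact h3.symm
  obtain ⟨g, g', hg⟩ := h
  have h2 := congrArg ε hg
  rw [map_mul, map_add, map_mul, map_mul, fm6, fm4, fm1, fm3, fm0, map_sub, map_sub, map_sub,
    e0, e1, e2] at h2
  have h3 : (-2 * X V.iz : MvPolynomial (Fin n) K) * ε s = 0 := by linear_combination h2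
  have h4 : ε s = 0 := by
    refine (mul_eq_zero.mp h3).resolve_left (mul_ne_zero ?_ (X_ne_zero _))
    exact neg_ne_zero.mpr two_ne_zero
  have h5 := h1 s
  rw [h4, sub_zero, hI, Ideal.mem_span_pair] at h5
  obtain ⟨a, b, hab⟩ := h5
  exact ⟨a, b, by rw [← hab]; ring⟩

end

end Pool.Agent.Lib.MP_5ef5ec_co
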