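import Pool.Agent.Lib.MP_5ef5ec_co.Neg4

/-!
# Non-freeness for `ℓ ≥ 3`, conclusion
-/

namespace Pool.Agent.Lib.MP_5ef5ec_co

open MvPolynomial

section

variable {K : Type*} [Field K] [CharZero K] {n : ℕ} (V : Vars n)

omit [CharZero K] in
theorem cond_aux {T : Type*} [CommRing T] [IsDomain T] (h2 : (2 : T) ≠ 0)
    (θ : MvPolynomial (Fin n) K →ₗ[K] MvPolynomial (Fin n) K)
    (e : MvPolynomial (Fin n) K →+* T)
    {α β γ F1 F2 s1 s2 Y p r : MvPolynomial (Fin n) K}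
    (hF1 : ∀ g, F1 ∣ θ (F1 * g)) (hF2 : ∀ g, F2 ∣ θ (F2 * g)) (hα : ∀ g, α ∣ θ (α * g))
    (e1 : α + β + γ = F1 * s1) (e2 : α - β - γ = F2 * s2)
    (p1 : Prime F1) (p2 : Prime F2) (n1 : ¬ F1 ∣ α) (n2 : ¬ F2 ∣ α)
    (hp : θ (α * β * Y) = α * β * p) (hr : θ (γ * α * Y) = γ * α * r)
    (z1 : e F1 = 0) (z2 : e F2 = 0) (hβ : e β = - e γ) (hγ : e γ ≠ 0) : e p = e r := by
  obtain ⟨k, hk⟩ := hα (α * Y)
  have a1 : F1 ∣ α * (k + β * p + γ * r) := by
    have h := hF1 (s1 * (α * Y))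
    rw [← mul_assoc, ← e1] at h
    have h3 : (α + β + γ) * (α * Y) = α * (α * Y) + α * β * Y + γ * α * Y := by ring
    rw [h3, map_add, map_add, hk, hp, hr] at h
    have h4 : α * k + α * β * p + γ * α * r = α * (k + β * p + γ * r) := by ring
    rwa [h4] at h
  have a2 : F2 ∣ α * (k - β * p - γ * r) := by
    have h := hF2 (s2 * (α * Y))
    rw [← mul_assoc, ← e2] at h
    have h3 : (α - β - γ) * (α * Y) = α * (α * Y) - α * β * Y - γ * α * Y := by ring
    rw [h3, map_sub, map_sub, hk, hp, hr] at h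
    have h4 : α * k - α * β * p - γ * α * r = α * (k - β * p - γ * r) := by ring
    rwa [h4] at h
  obtain ⟨q1, hq1⟩ := (p1.dvd_or_dvd a1).resolve_left n1
  obtain ⟨q2, hq2⟩ := (p2.dvd_or_dvd a2).resolve_left n2
  have b1 := congrArg e hq1
  have b2 := congrArg e hq2
  rw [map_mul, z1, zero_mul, map_add, map_add, map_mul, map_mul, hβ] at b1
  rw [map_mul, z2, zero_mul, map_sub, map_sub, map_mul, map_mul, hβ] at b2
  have h5 : (2 * e γ) * (e r - e p) = 0 := by linear_combination b1 - b2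
  have h6 := (mul_eq_zero.mp h5).resolve_left (mul_ne_zero h2 hγ)
  exact (sub_eq_zero.mp h6).symm

theorem mul_dvd_of_mem {P : Fin n → K} (h0 : P V.i0 = 0) (h1 : P V.i1 = 0) (h2 : P V.iz = 0)
    {Q' : MvPolynomial (Fin n) K} (hQ' : eval P Q' ≠ 0) {m : ℕ}
    {θ : MvPolynomial (Fin n) K →ₗ[K] MvPolynomial (Fin n) K}
    (hθ : θ ∈ logOps ((∏ i : Fin 7, fm K V (cz i)) * Q') m) {i j : Fin 7} (hij : j ≠ i)
    (g : MvPolynomial (Fin n) K) :
    fm K V (cz i) * fm K V (cz j) ∣ θ (fm K V (cz i) * fm K V (cz j) * g) := by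
  refine IsRelPrime.mul_dvd ((prime_fm V i).irreducible.isRelPrime_iff_not_dvd.mpr
    (fm_not_dvd V hij)) ?_ ?_
  · rw [mul_assoc]
    exact fm_dvd_of_mem V h0 h1 h2 hQ' hθ i _
  · rw [mul_comm (fm K V (cz i)), mul_assoc]
    exact fm_dvd_of_mem V h0 h1 h2 hQ' hθ j _

theorem not_free {P : Fin n → K} (h0 : P V.i0 = 0) (h1 : P V.i1 = 0) (h2 : P V.iz = 0)
    {Q' : MvPolynomial (Fin n) K} (hQ' : eval P Q' ≠ 0) (m : ℕ) :
    ¬ Module.Free (MvPolynomial (Fin n) K)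
      (logOps ((∏ i : Fin 7, fm K V (cz i)) * Q') (m + 2)) := by
  intro hfree
  set a := fm K V (cz 1) with ha
  set b := fm K V (cz 4) with hb
  set c := fm K V (cz 6) with hc
  set Y : MvPolynomial (Fin n) K := X V.iy ^ m with hY
  set κ : MvPolynomial (Fin n) K := 2 * (m.factorial : MvPolynomial (Fin n) K) * Q' with hκ
  set Q := (∏ i : Fin 7, fm K V (cz i)) * Q' with hQ
  let w : logOps Q (m + 2) := ⟨Q' • Wop V m, mem_logOps_of_dvd V Q' (Wop_mem V m) (Wop_dvd V m)⟩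
  let u : logOps Q (m + 2) := ⟨Q' • Uop V m, mem_logOps_of_dvd V Q' (Uop_mem V m) (Uop_dvd V m)⟩
  let v : logOps Q (m + 2) := ⟨Q' • Vop V m, mem_logOps_of_dvd V Q' (Vop_mem V m) (Vop_dvd V m)⟩
  have hrel : c • w = a • u + b • v := by
    apply Subtype.ext
    refine LinearMap.ext fun g => ?_
    change c * (Q' * Wop V m g) = a * (Q' * Uop V m g) + b * (Q' * Vop V m g)
    have := rel_WUV V m g
    rw [← ha, ← hb, ← hc] at this
    linear_combination Q' * this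
  obtain ⟨⟨u', hu'⟩, ⟨v', hv'⟩, huv⟩ := exists_of_free (R := MvPolynomial (Fin n) K)
    (M := logOps Q (m + 2)) (a := a) (b := b) (c := c) (fun s hs => regular_abc V s hs) hrel
  have key : ∀ g, Q' * Wop V m g = a * u' g + b * v' g := by
    intro g
    have h := congrArg (fun F : logOps Q (m + 2) =>
      (F : MvPolynomial (Fin n) K →ₗ[K] MvPolynomial (Fin n) K) g) huv
    exact h
  have na : a ≠ 0 := (prime_fm V 1).ne_zero
  have nb : b ≠ 0 := (prime_fm V 4).ne_zero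
  have nc : c ≠ 0 := (prime_fm V 6).ne_zero
  obtain ⟨u1, hu1⟩ := mul_dvd_of_mem V h0 h1 h2 hQ' hu' (i := 1) (j := 4) (by decide) Y
  obtain ⟨v1, hv1⟩ := mul_dvd_of_mem V h0 h1 h2 hQ' hv' (i := 1) (j := 4) (by decide) Y
  obtain ⟨u2, hu2⟩ := mul_dvd_of_mem V h0 h1 h2 hQ' hu' (i := 4) (j := 6) (by decide) Y
  obtain ⟨v2, hv2⟩ := mul_dvd_of_mem V h0 h1 h2 hQ' hv' (i := 4) (j := 6) (by decide) Y
  obtain ⟨u3, hu3⟩ := mul_dvd_of_mem V h0 h1 h2 hQ' hu' (i := 6) (j := 1) (by decide) Y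
  obtain ⟨v3, hv3⟩ := mul_dvd_of_mem V h0 h1 h2 hQ' hv' (i := 6) (j := 1) (by decide) Y
  rw [← ha, ← hb] at hu1 hv1
  rw [← hb, ← hc] at hu2 hv2
  rw [← hc, ← ha] at hu3 hv3
  have nba : ¬ b ∣ a := fm_not_dvd V (by decide)
  -- the first relation
  obtain ⟨t, ht⟩ : b ∣ u1 := by
    have h := key (a * b * Y)
    rw [Wop_ab, hu1, hv1, mul_zero] at h
    have h3 : (a * b) * (a * u1 + b * v1) = 0 := by linear_combination -h
    have h4 := (mul_eq_zero.mp h3).resolve_left (mul_ne_zero na nb)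
    have h5 : b ∣ a * u1 := Dvd.intro (-v1) (by linear_combination -h4)
    exact ((prime_fm V 4).dvd_or_dvd h5).resolve_left nba
  have hv1' : v1 = -(a * t) := by
    have h := key (a * b * Y)
    rw [Wop_ab, hu1, hv1, mul_zero, ht] at h
    have h3 : (a * b * b) * (v1 + a * t) = 0 := by linear_combination -h
    have h4 := (mul_eq_zero.mp h3).resolve_left (mul_ne_zero (mul_ne_zero na nb) nb)
    linear_combination h4
  -- the second relation
  obtain ⟨t2, ht2⟩ : b ∣ u2 := by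
    have h := key (b * c * Y)
    rw [Wop_bc, hu2, hv2] at h
    have h3 : (b * c) * (a * u2 + b * v2 + κ * (a * b)) = 0 := by
      rw [hκ]
      linear_combination -h
    have h4 := (mul_eq_zero.mp h3).resolve_left (mul_ne_zero nb nc)
    have h5 : b ∣ a * u2 := Dvd.intro (-v2 - κ * a) (by linear_combination -h4)
    exact ((prime_fm V 4).dvd_or_dvd h5).resolve_left nba
  have hv2' : v2 = -(a * (κ + t2)) := by
    have h := key (b * c * Y)
    rw [Wop_bc, hu2, hv2, ht2] at h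
    have h3 : (b * c * b) * (v2 + a * (κ + t2)) = 0 := by
      rw [hκ]
      linear_combination -h
    have h4 := (mul_eq_zero.mp h3).resolve_left (mul_ne_zero (mul_ne_zero nb nc) nb)
    linear_combination h4
  -- the third relation
  obtain ⟨t3, ht3⟩ : b ∣ u3 := by
    have h := key (c * a * Y)
    rw [Wop_ca, hu3, hv3] at h
    have h3 : (c * a) * (a * u3 + b * v3 + κ * (a * b)) = 0 := by
      rw [hκ]
      linear_combination -h
    have h4 := (mul_eq_zero.mp h3).resolve_left (mul_ne_zero nc na)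
    have h5 : b ∣ a * u3 := Dvd.intro (-v3 - κ * a) (by linear_combination -h4)
    exact ((prime_fm V 4).dvd_or_dvd h5).resolve_left nba
  have two_ne : (2 : Polynomial K) ≠ 0 := two_ne_zero
  have x0 : (Polynomial.X : Polynomial K) ≠ 0 := Polynomial.X_ne_zero
  have hE : ∀ (i : Fin 7) (w : Fin 3 → ℤ), dz (cz i) w = 0 →
      (eh V P w).toRingHom (fm K V (cz i)) = 0 := by
    intro i w hw
    change eh V P w (fm K V (cz i)) = 0
    rw [eh_fm, hw, Int.cast_zero, Polynomial.C_0, zero_mul]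
  have hE' : ∀ (i j : Fin 7) (w : Fin 3 → ℤ), dz (cz i) w = - dz (cz j) w →
      (eh V P w).toRingHom (fm K V (cz i)) = - (eh V P w).toRingHom (fm K V (cz j)) := by
    intro i j w hw
    change eh V P w (fm K V (cz i)) = - eh V P w (fm K V (cz j))
    rw [eh_fm, eh_fm, hw, Int.cast_neg, Polynomial.C_neg, neg_mul]
  have hN : ∀ (i : Fin 7) (w : Fin 3 → ℤ), dz (cz i) w ≠ 0 →
      (eh V P w).toRingHom (fm K V (cz i)) ≠ 0 := by
    intro i w hw
    change eh V P w (fm K V (cz i)) ≠ 0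
    rw [eh_fm]
    exact mul_ne_zero (Polynomial.C_ne_zero.mpr (Int.cast_ne_zero.mpr hw)) x0
  -- first comparison
  have c1 : eval P t = eval P t3 := by
    have h := cond_aux two_ne u' (eh V P ![0, 1, 0]).toRingHom (α := a) (β := b) (γ := c)
      (F1 := fm K V (cz 2)) (F2 := fm K V (cz 0)) (s1 := 2) (s2 := 2) (Y := Y) (p := u1)
      (r := u3) (fm_dvd_of_mem V h0 h1 h2 hQ' hu' 2) (fm_dvd_of_mem V h0 h1 h2 hQ' hu' 0)
      (fm_dvd_of_mem V h0 h1 h2 hQ' hu' 1)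
      (by rw [ha, hb, hc, fm2, fm4, fm6]; ring) (by rw [ha, hb, hc, fm4, fm6]; ring)
      (prime_fm V 2) (prime_fm V 0) (fm_not_dvd V (by decide)) (fm_not_dvd V (by decide))
      hu1 hu3 (hE _ _ (by decide)) (hE _ _ (by decide)) (hE' _ _ _ (by decide)) (hN _ _ (by decide))
    rw [ht, ht3, map_mul, map_mul] at h
    have h3 := mul_left_cancel₀ (hN _ _ (by decide)) h
    rw [← eh_eval V h0 h1 h2 ![0, 1, 0], ← eh_eval V h0 h1 h2 ![0, 1, 0]]
    exact congrArg (Polynomial.eval 0) h3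
  have c2 : eval P t3 = eval P t2 := by
    have h := cond_aux two_ne u' (eh V P ![1, 0, 1]).toRingHom (α := c) (β := a) (γ := b)
      (F1 := fm K V (cz 2)) (F2 := fm K V (cz 3)) (s1 := 2) (s2 := -2) (Y := Y) (p := u3)
      (r := u2) (fm_dvd_of_mem V h0 h1 h2 hQ' hu' 2) (fm_dvd_of_mem V h0 h1 h2 hQ' hu' 3)
      (fm_dvd_of_mem V h0 h1 h2 hQ' hu' 6)
      (by rw [ha, hb, hc, fm2, fm4, fm6]; ring) (by rw [ha, hb, hc, fm4, fm6]; ring)
      (prime_fm V 2) (prime_fm V 3) (fm_not_dvd V (by decide)) (fm_not_dvd V (by decide))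
      hu3 hu2 (hE _ _ (by decide)) (hE _ _ (by decide)) (hE' _ _ _ (by decide)) (hN _ _ (by decide))
    rw [ht3, ht2, map_mul, map_mul] at h
    have h3 := mul_left_cancel₀ (hN _ _ (by decide)) h
    rw [← eh_eval V h0 h1 h2 ![1, 0, 1], ← eh_eval V h0 h1 h2 ![1, 0, 1]]
    exact congrArg (Polynomial.eval 0) h3
  have c3 : eval P κ + eval P t2 = eval P t := by
    have h := cond_aux two_ne v' (eh V P ![1, 1, 1]).toRingHom (α := b) (β := c) (γ := a)
      (F1 := fm K V (cz 2)) (F2 := fm K V (cz 5)) (s1 := 2) (s2 := -2) (Y := Y) (p := v2)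
      (r := v1) (fm_dvd_of_mem V h0 h1 h2 hQ' hv' 2) (fm_dvd_of_mem V h0 h1 h2 hQ' hv' 5)
      (fm_dvd_of_mem V h0 h1 h2 hQ' hv' 4)
      (by rw [ha, hb, hc, fm2, fm4, fm6]; ring) (by rw [ha, hb, hc, fm4, fm5, fm6]; ring)
      (prime_fm V 2) (prime_fm V 5) (fm_not_dvd V (by decide)) (fm_not_dvd V (by decide))
      hv2 hv1 (hE _ _ (by decide)) (hE _ _ (by decide)) (hE' _ _ _ (by decide)) (hN _ _ (by decide))
    rw [hv2', hv1', map_neg, map_neg, neg_inj, map_mul, map_mul] at h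
    have h3 := mul_left_cancel₀ (hN _ _ (by decide)) h
    rw [← map_add, ← eh_eval V h0 h1 h2 ![1, 1, 1], ← eh_eval V h0 h1 h2 ![1, 1, 1]]
    exact congrArg (Polynomial.eval 0) h3
  have c4 : eval P κ = 0 := by
    rw [← c2, ← c1] at c3
    linear_combination c3
  rw [hκ, map_mul, map_mul, map_ofNat, map_natCast] at c4
  exact mul_ne_zero (mul_ne_zero two_ne_zero (Nat.cast_ne_zero.mpr (Nat.factorial_ne_zero m)))
    hQ' c4

end

end Pool.Agent.Lib.MP_5ef5ec_co
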