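import Pool.Agent.Lib.MP_5ef5ec_co.Neg5

/-!
# The arrangement `Shi_ℓ`, `ℓ ≥ 3`, is not `m`-free for `m ≥ 2`
-/

namespace Pool.Agent.Lib.MP_5ef5ec_co

open MvPolynomial

section

variable (K : Type*) [Field K] (k : ℕ)

/-- The variables `x_1, x_2, z, x_3`. -/
def shiVars : Vars (k + 3 + 1) where
  i0 := (0 : Fin (k + 3)).castSucc
  i1 := (1 : Fin (k + 3)).castSucc
  iz := Fin.last (k + 3)
  iy := (2 : Fin (k + 3)).castSucc
  h01 := by
    intro h
    have := Fin.castSucc_injective _ h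
    exact absurd this (by simp)
  h0z := (Fin.castSucc_lt_last _).ne
  h1z := (Fin.castSucc_lt_last _).ne
  h0y := by
    intro h
    have := Fin.castSucc_injective _ h
    exact absurd (congrArg Fin.val this) (by simp [Nat.mod_eq_of_lt])
  h1y := by
    intro h
    have := Fin.castSucc_injective _ h
    exact absurd (congrArg Fin.val this) (by simp [Nat.mod_eq_of_lt])
  hzy := (Fin.castSucc_lt_last _).ne'

/-- A linear factor. -/
noncomputable def ff (i : Fin (k + 3)) : MvPolynomial (Fin (k + 3 + 1)) K :=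
  X i.castSucc * (X i.castSucc - X (Fin.last (k + 3)))

/-- A product of two linear factors. -/
noncomputable def gg (i j : Fin (k + 3)) : MvPolynomial (Fin (k + 3 + 1)) K :=
  (X i.castSucc - X j.castSucc) * (X i.castSucc - X j.castSucc - X (Fin.last (k + 3)))

/-- The rest of the defining polynomial. -/
noncomputable def shiRest : MvPolynomial (Fin (k + 3 + 1)) K :=
  (∏ i : Fin (k + 1), ff K k i.succ.succ) * (∏ j ∈ (Finset.Ioi (0 : Fin (k + 3))).erase 1,
    gg K k 0 j) * (∏ j ∈ Finset.Ioi (1 : Fin (k + 3)), gg K k 1 j) *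
    ∏ i : Fin (k + 1), ∏ j ∈ Finset.Ioi i.succ.succ, gg K k i.succ.succ j

theorem shiQ_eq : shiQ K (k + 3) =
    (∏ i : Fin 7, fm K (shiVars k) (cz i)) * shiRest K k := by
  have h1 : ∏ i : Fin (k + 3), ff K k i =
      ff K k 0 * (ff K k 1 * ∏ i : Fin (k + 1), ff K k i.succ.succ) := by
    rw [Fin.prod_univ_succ, Fin.prod_univ_succ]
    rfl
  have h2 : ∏ i : Fin (k + 3), ∏ j ∈ Finset.Ioi i, gg K k i j =
      (∏ j ∈ Finset.Ioi (0 : Fin (k + 3)), gg K k 0 j) *
      ((∏ j ∈ Finset.Ioi (1 : Fin (k + 3)), gg K k 1 j) *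
      ∏ i : Fin (k + 1), ∏ j ∈ Finset.Ioi i.succ.succ, gg K k i.succ.succ j) := by
    rw [Fin.prod_univ_succ, Fin.prod_univ_succ]
    rfl
  have h3 : ∏ j ∈ Finset.Ioi (0 : Fin (k + 3)), gg K k 0 j = gg K k 0 1 *
      ∏ j ∈ (Finset.Ioi (0 : Fin (k + 3))).erase 1, gg K k 0 j := by
    rw [Finset.mul_prod_erase]
    rw [Finset.mem_Ioi]
    exact Fin.lt_def.mpr (by simp)
  have h4 : shiQ K (k + 3) = X (Fin.last (k + 3)) * (∏ i : Fin (k + 3), ff K k i) *
      ∏ i : Fin (k + 3), ∏ j ∈ Finset.Ioi i, gg K k i j := rfl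
  have h5 : ∏ i : Fin 7, fm K (shiVars k) (cz i) =
      X (Fin.last (k + 3)) * ff K k 0 * ff K k 1 * gg K k 0 1 := by
    simp only [Fin.prod_univ_succ, Finset.univ_unique, Finset.prod_singleton,
      Fin.succ_zero_eq_one, Fin.succ_one_eq_two, Fin.default_eq_zero]
    have e3 : (Fin.succ (2 : Fin 6) : Fin 7) = 3 := rfl
    have e4 : (Fin.succ (Fin.succ (2 : Fin 5)) : Fin 7) = 4 := rfl
    have e5 : (Fin.succ (Fin.succ (Fin.succ (2 : Fin 4))) : Fin 7) = 5 := rfl
    have e6 : (Fin.succ (Fin.succ (Fin.succ (Fin.succ (2 : Fin 3)))) : Fin 7) = 6 := rfl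
    rw [e3, e4, e5, e6, fm2, fm4, fm5, fm6, fm0, fm1, fm3]
    simp only [ff, gg, shiVars]
    ring
  rw [h4, h1, h2, h3, h5, shiRest]
  ring

/-- The natural number giving the coordinate of the point. -/
def pn (i : ℕ) : ℕ := if i < 2 then 0 else i

theorem pn_ne {i j : ℕ} (hij : i < j) (hj : 2 ≤ j) : pn i ≠ pn j := by
  simp only [pn]
  split_ifs <;> omega

/-- A generic point of the flat. -/
noncomputable def shiPt : Fin (k + 3 + 1) → K :=
  Fin.snoc (α := fun _ => K) (fun i : Fin (k + 3) => ((pn i : ℕ) : K)) 0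

theorem shiPt_castSucc (i : Fin (k + 3)) : shiPt K k i.castSucc = ((pn i : ℕ) : K) := by
  rw [shiPt, Fin.snoc_castSucc]

theorem shiPt_last : shiPt K k (Fin.last (k + 3)) = 0 := by
  rw [shiPt, Fin.snoc_last]

variable [CharZero K]

theorem eval_ff {i : Fin (k + 3)} (hi : 2 ≤ (i : ℕ)) : eval (shiPt K k) (ff K k i) ≠ 0 := by
  have h : pn (i : ℕ) ≠ 0 := by
    simp only [pn]
    split_ifs <;> omega
  simp only [ff, map_mul, map_sub, eval_X, shiPt_castSucc, shiPt_last, sub_zero]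
  exact mul_ne_zero (Nat.cast_ne_zero.mpr h) (Nat.cast_ne_zero.mpr h)

theorem eval_gg {i j : Fin (k + 3)} (hij : i < j) (hj : 2 ≤ (j : ℕ)) :
    eval (shiPt K k) (gg K k i j) ≠ 0 := by
  have h : ((pn (i : ℕ) : ℕ) : K) - ((pn (j : ℕ) : ℕ) : K) ≠ 0 := by
    rw [sub_ne_zero, Ne, Nat.cast_inj]
    exact pn_ne (Fin.lt_def.mp hij) hj
  simp only [gg, map_mul, map_sub, eval_X, shiPt_castSucc, shiPt_last, sub_zero]
  exact mul_ne_zero h h

theorem eval_shiRest : eval (shiPt K k) (shiRest K k) ≠ 0 := by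
  have hs : ∀ i : Fin (k + 1), 2 ≤ ((i.succ.succ : Fin (k + 3)) : ℕ) := fun i => by simp
  rw [shiRest, map_mul, map_mul, map_mul, map_prod, map_prod, map_prod, map_prod]
  refine mul_ne_zero (mul_ne_zero (mul_ne_zero ?_ ?_) ?_) ?_
  · exact Finset.prod_ne_zero_iff.mpr fun i _ => eval_ff K k (hs i)
  · refine Finset.prod_ne_zero_iff.mpr fun j hj => ?_
    rw [Finset.mem_erase, Finset.mem_Ioi] at hj
    refine eval_gg K k hj.2 ?_
    have h1 : (j : ℕ) ≠ 1 := fun h => hj.1 (Fin.ext (by rw [h]; simp))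
    have h2 := Fin.lt_def.mp hj.2
    simp only [Fin.val_zero] at h2
    omega
  · refine Finset.prod_ne_zero_iff.mpr fun j hj => ?_
    rw [Finset.mem_Ioi] at hj
    refine eval_gg K k hj ?_
    have h2 := Fin.lt_def.mp hj
    simp only [Fin.val_one] at h2
    omega
  · refine Finset.prod_ne_zero_iff.mpr fun i _ => ?_
    rw [map_prod]
    refine Finset.prod_ne_zero_iff.mpr fun j hj => ?_
    rw [Finset.mem_Ioi] at hj
    exact eval_gg K k hj ((hs i).trans (Fin.lt_def.mp hj).le)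

theorem not_isMFree_shi {ℓ m : ℕ} (hl : 3 ≤ ℓ) (hm : 2 ≤ m) : ¬ IsMFree (shiQ K ℓ) m := by
  obtain ⟨k, rfl⟩ := Nat.exists_eq_add_of_le' hl
  obtain ⟨r, rfl⟩ := Nat.exists_eq_add_of_le' hm
  rw [IsMFree, shiQ_eq]
  have h0 : shiPt K k (shiVars k).i0 = 0 := by
    change shiPt K k (0 : Fin (k + 3)).castSucc = 0
    rw [shiPt_castSucc]
    simp [pn]
  have h1 : shiPt K k (shiVars k).i1 = 0 := by
    change shiPt K k (1 : Fin (k + 3)).castSucc = 0
    rw [shiPt_castSucc]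
    simp [pn]
  exact not_free (shiVars k) h0 h1 (shiPt_last K k) (eval_shiRest K k) r

end

end Pool.Agent.Lib.MP_5ef5ec_co
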