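import Pool.Agent.Lib.MP_5ef5ec_co.Defs

/-!
# Basic facts on the operators `∂^a`
-/

namespace Pool.Agent.Lib.MP_5ef5ec_co

open MvPolynomial

variable {K : Type*} [Field K] {n : ℕ}

theorem pd_apply (i : Fin n) (f : MvPolynomial (Fin n) K) : pd K i f = pderiv i f := rfl

theorem pd_pow_monomial (i : Fin n) (k : ℕ) (s : Fin n →₀ ℕ) (c : K) :
    (pd K i ^ k) (monomial s c) =
      monomial (s - Finsupp.single i k) (c * ((s i).descFactorial k : K)) := by
  induction k generalizing s c with
  | zero => simp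
  | succ k ih =>
    rw [pow_succ, Module.End.mul_apply]
    have h1 : pd K i (monomial s c) = monomial (s - Finsupp.single i 1) (c * s i) :=
      pderiv_monomial
    rw [h1, ih]
    have h2 : s - Finsupp.single i 1 - Finsupp.single i k = s - Finsupp.single i (k + 1) := by
      rw [tsub_tsub, ← Finsupp.single_add, add_comm 1 k]
    have h3 : (c * (s i : K) * (((s - Finsupp.single i 1 : Fin n →₀ ℕ) i).descFactorial k : K))
        = c * ((s i).descFactorial (k + 1) : K) := by
      rw [Finsupp.tsub_apply, Finsupp.single_eq_same]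
      rcases Nat.eq_zero_or_pos (s i) with h | h
      · rw [h]
        simp
      · obtain ⟨t, ht⟩ := Nat.exists_eq_succ_of_ne_zero h.ne'
        rw [ht, Nat.succ_descFactorial_succ, Nat.succ_sub_one]
        push_cast
        ring
    rw [h2, h3]

theorem list_prod_monomial (a : Fin n → ℕ) (l : List (Fin n)) (hl : l.Nodup)
    (s : Fin n →₀ ℕ) (c : K) :
    (l.map fun i => pd K i ^ a i).prod (monomial s c) =
      monomial (s - (l.map fun i => Finsupp.single i (a i)).sum)
        (c * (l.map fun i => ((s i).descFactorial (a i) : K)).prod) := by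
  induction l with
  | nil => simp
  | cons i l ih =>
    rw [List.map_cons, List.prod_cons, Module.End.mul_apply, ih (List.nodup_cons.mp hl).2,
      pd_pow_monomial]
    have hi : i ∉ l := (List.nodup_cons.mp hl).1
    have h0 : ((l.map fun i => Finsupp.single i (a i)).sum : Fin n →₀ ℕ) i = 0 := by
      clear ih hl
      induction l with
      | nil => simp
      | cons j l ih =>
        rw [List.map_cons, List.sum_cons, Finsupp.add_apply]
        rw [List.mem_cons, not_or] at hi
        rw [ih hi.2, Finsupp.single_eq_of_ne hi.1]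
    rw [Finsupp.tsub_apply, h0, tsub_zero, List.map_cons, List.sum_cons, List.map_cons,
      List.prod_cons]
    congr 1
    · rw [tsub_tsub, add_comm]
    · ring

/-- The exponent as a finitely supported function. -/
noncomputable def ex (a : Fin n → ℕ) : Fin n →₀ ℕ := Finsupp.equivFunOnFinite.symm a

@[simp] theorem ex_apply (a : Fin n → ℕ) (i : Fin n) : ex a i = a i := rfl

theorem sum_single_ex (a : Fin n → ℕ) :
    ((List.finRange n).map fun i => Finsupp.single i (a i)).sum = ex a := by
  rw [← Fin.sum_univ_def]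
  ext j
  rw [Finsupp.finsetSum_apply, Finset.sum_eq_single j]
  · simp
  · intro b _ hb
    exact Finsupp.single_eq_of_ne (Ne.symm hb)
  · intro h
    exact absurd (Finset.mem_univ j) h

theorem dpow_monomial (a : Fin n → ℕ) (s : Fin n →₀ ℕ) (c : K) :
    dpow K a (monomial s c) =
      monomial (s - ex a) (c * ∏ i, ((s i).descFactorial (a i) : K)) := by
  rw [dpow, list_prod_monomial a _ (List.nodup_finRange n), sum_single_ex, ← Fin.prod_univ_def]

theorem dpow_monomial_of_lt (a : Fin n → ℕ) (s : Fin n →₀ ℕ) (c : K) {i : Fin n}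
    (h : s i < a i) : dpow K a (monomial s c) = 0 := by
  rw [dpow_monomial, Finset.prod_eq_zero (Finset.mem_univ i), mul_zero, map_zero]
  rw [Nat.descFactorial_of_lt h, Nat.cast_zero]

theorem dpow_monomial_self (a : Fin n → ℕ) :
    dpow K a (monomial (ex a) 1) = C (∏ i, ((a i).factorial : K)) := by
  rw [dpow_monomial, tsub_self, one_mul]
  have : ∀ i, ((ex a i).descFactorial (a i) : K) = ((a i).factorial : K) := by
    intro i
    rw [ex_apply, Nat.descFactorial_self]
  simp only [this]
  rfl

theorem exists_lt_of_sum_le {a b : Fin n → ℕ} (h : ∑ i, b i ≤ ∑ i, a i) (hne : b ≠ a) :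
    ∃ i, b i < a i := by
  by_contra hcon
  push Not at hcon
  apply hne
  have h1 : ∑ i, a i = ∑ i, b i := le_antisymm (Finset.sum_le_sum fun i _ => hcon i) h
  have h2 := (Finset.sum_eq_sum_iff_of_le (fun i _ => hcon i)).mp h1
  funext i
  exact (h2 i (Finset.mem_univ i)).symm

theorem ops_induction {m : ℕ} {p : (MvPolynomial (Fin n) K →ₗ[K] MvPolynomial (Fin n) K) → Prop}
    (h0 : p 0) (hadd : ∀ θ θ', p θ → p θ' → p (θ + θ')) (hsmul : ∀ (s : MvPolynomial (Fin n) K) θ,
      p θ → p (s • θ)) (hd : ∀ a : Fin n → ℕ, ∑ i, a i = m → p (dpow K a)) {θ}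
    (hθ : θ ∈ ops K n m) : p θ := by
  refine Submodule.span_induction (p := fun x _ => p x) ?_ h0 ?_ ?_ hθ
  · rintro _ ⟨a, ha, rfl⟩
    exact hd a ha
  · intro x y _ _ hx hy
    exact hadd x y hx hy
  · intro s x _ hx
    exact hsmul s x hx

theorem dpow_mem_ops (a : Fin n → ℕ) : dpow K a ∈ ops K n (∑ i, a i) :=
  Submodule.subset_span ⟨a, rfl, rfl⟩

/-- Operators of order `m` kill the monomials of smaller degree. -/
theorem ops_monomial_of_lt {m : ℕ} {θ : MvPolynomial (Fin n) K →ₗ[K] MvPolynomial (Fin n) K}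
    (hθ : θ ∈ ops K n m) (s : Fin n →₀ ℕ) (c : K) (hs : ∑ i, s i < m) :
    θ (monomial s c) = 0 := by
  refine ops_induction (p := fun θ => θ (monomial s c) = 0) ?_ ?_ ?_ ?_ hθ
  · rfl
  · intro θ θ' h h'
    rw [LinearMap.add_apply, h, h', add_zero]
  · intro r θ h
    rw [LinearMap.smul_apply, h, smul_zero]
  · intro a ha
    have h1 : ∑ i, s i ≤ ∑ i, a i := by rw [ha]; exact hs.le
    obtain ⟨i, hi⟩ := exists_lt_of_sum_le h1 (by
      rintro h
      rw [h, ha] at hs
      exact lt_irrefl _ hs)
    exact dpow_monomial_of_lt a s c hi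

theorem prod_factorial_ne_zero [CharZero K] (a : Fin n → ℕ) :
    (∏ i, ((a i).factorial : K)) ≠ 0 :=
  Finset.prod_ne_zero_iff.mpr fun _ _ => Nat.cast_ne_zero.mpr (Nat.factorial_ne_zero _)

/-- Taylor type formula: an operator of order `m` is determined by its values on the monomials
of degree `m`. -/
theorem ops_eq_sum [CharZero K] {m : ℕ}
    {θ : MvPolynomial (Fin n) K →ₗ[K] MvPolynomial (Fin n) K} (hθ : θ ∈ ops K n m) :
    θ = ∑ a ∈ Finset.piAntidiag (Finset.univ : Finset (Fin n)) m,
      (C (∏ i, ((a i).factorial : K))⁻¹ * θ (monomial (ex a) 1)) • dpow K a := by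
  refine ops_induction (p := fun θ => θ = ∑ a ∈ Finset.piAntidiag (Finset.univ : Finset (Fin n)) m,
      (C (∏ i, ((a i).factorial : K))⁻¹ * θ (monomial (ex a) 1)) • dpow K a) ?_ ?_ ?_ ?_ hθ
  · simp
  · intro θ θ' h h'
    conv_lhs => rw [h, h']
    rw [← Finset.sum_add_distrib]
    refine Finset.sum_congr rfl fun a _ => ?_
    rw [LinearMap.add_apply, mul_add, add_smul]
  · intro s θ h
    conv_lhs => rw [h]
    rw [Finset.smul_sum]
    refine Finset.sum_congr rfl fun a _ => ?_
    rw [LinearMap.smul_apply, smul_smul, smul_eq_mul]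
    congr 1
    ring
  · intro b hb
    rw [Finset.sum_eq_single b]
    · rw [dpow_monomial_self, ← C_mul, inv_mul_cancel₀ (prod_factorial_ne_zero b), C_1, one_smul]
    · intro a ha hab
      rw [Finset.mem_piAntidiag] at ha
      have h1 : ∑ i, a i = m := ha.1
      obtain ⟨i, hi⟩ := exists_lt_of_sum_le (a := b) (b := a) (by rw [h1, hb]) hab
      rw [dpow_monomial_of_lt b (ex a) 1 hi, mul_zero, zero_smul]
    · intro h
      exfalso
      apply h
      rw [Finset.mem_piAntidiag]
      exact ⟨hb, fun i _ => Finset.mem_univ i⟩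

/-! ### Commutators -/

theorem pd_X_mul (i j : Fin n) (f : MvPolynomial (Fin n) K) :
    pd K i (X j * f) = X j * pd K i f + if i = j then f else 0 := by
  rw [pd_apply, pd_apply, Derivation.leibniz, pderiv_X, smul_eq_mul, smul_eq_mul]
  congr 1
  rw [Pi.single_apply]
  by_cases h : i = j
  · rw [if_pos h, if_pos h.symm, mul_one]
  · rw [if_neg h, if_neg (Ne.symm h), mul_zero]

theorem pd_pow_X_mul (i j : Fin n) (k : ℕ) (f : MvPolynomial (Fin n) K) :
    (pd K i ^ k) (X j * f) =
      X j * (pd K i ^ k) f + if i = j then (k : K) • (pd K i ^ (k - 1)) f else 0 := by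
  induction k with
  | zero => simp
  | succ k ih =>
    rw [pow_succ', Module.End.mul_apply, Module.End.mul_apply, ih, map_add, pd_X_mul]
    by_cases h : i = j
    · rw [if_pos h, if_pos h, if_pos h, map_smul, Nat.add_sub_cancel]
      rcases Nat.eq_zero_or_pos k with hk | hk
      · subst hk
        simp
      · obtain ⟨t, rfl⟩ := Nat.exists_eq_succ_of_ne_zero hk.ne'
        rw [Nat.succ_sub_one, ← Module.End.mul_apply (pd K i) (pd K i ^ t), ← pow_succ']
        push_cast
        rw [Nat.succ_eq_add_one]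
        module
    · rw [if_neg h, if_neg h, if_neg h, map_zero, add_zero, add_zero]

theorem list_prod_X_mul (a : Fin n → ℕ) (j : Fin n) (l : List (Fin n)) (hl : l.Nodup)
    (f : MvPolynomial (Fin n) K) :
    (l.map fun i => pd K i ^ a i).prod (X j * f) = X j * (l.map fun i => pd K i ^ a i).prod f +
      if j ∈ l then (a j : K) •
        (l.map fun i => pd K i ^ (Function.update a j (a j - 1)) i).prod f else 0 := by
  induction l with
  | nil => simp
  | cons i l ih =>
    have hi : i ∉ l := (List.nodup_cons.mp hl).1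
    rw [List.map_cons, List.prod_cons, Module.End.mul_apply, ih (List.nodup_cons.mp hl).2,
      map_add, pd_pow_X_mul, Module.End.mul_apply, List.map_cons, List.prod_cons,
      Module.End.mul_apply]
    by_cases h : i = j
    · subst h
      rw [if_pos rfl, if_neg hi, if_pos List.mem_cons_self, map_zero, add_zero,
        Function.update_self]
      congr 5
      refine List.map_congr_left fun i' hi' => ?_
      rw [Function.update_of_ne (by rintro rfl; exact hi hi')]
    · rw [if_neg h, add_zero, Function.update_of_ne h]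
      by_cases hj : j ∈ l
      · rw [if_pos hj, if_pos (List.mem_cons_of_mem _ hj), map_smul]
      · rw [if_neg hj, if_neg (by
          rw [List.mem_cons, not_or]
          exact ⟨Ne.symm h, hj⟩), map_zero]

theorem dpow_X_mul (a : Fin n → ℕ) (j : Fin n) (f : MvPolynomial (Fin n) K) :
    dpow K a (X j * f) = X j * dpow K a f +
      (a j : K) • dpow K (Function.update a j (a j - 1)) f := by
  rw [dpow, list_prod_X_mul a j _ (List.nodup_finRange n), if_pos (List.mem_finRange j)]
  rfl

theorem sum_update_pred (a : Fin n → ℕ) (j : Fin n) (h : a j ≠ 0) :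
    ∑ i, Function.update a j (a j - 1) i + 1 = ∑ i, a i := by
  rw [Finset.sum_update_of_mem (Finset.mem_univ j), ← Finset.add_sum_erase _ _ (Finset.mem_univ j),
    Finset.sdiff_singleton_eq_erase]
  omega

theorem comm_X_mem {m : ℕ} {θ : MvPolynomial (Fin n) K →ₗ[K] MvPolynomial (Fin n) K}
    (hθ : θ ∈ ops K n (m + 1)) (j : Fin n) :
    θ ∘ₗ LinearMap.mulLeft K (X j) - LinearMap.mulLeft K (X j) ∘ₗ θ ∈ ops K n m := by
  refine ops_induction (p := fun θ => θ ∘ₗ LinearMap.mulLeft K (X j) -
    LinearMap.mulLeft K (X j) ∘ₗ θ ∈ ops K n m) ?_ ?_ ?_ ?_ hθ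
  · rw [LinearMap.zero_comp, LinearMap.comp_zero, sub_zero]
    exact zero_mem _
  · intro θ θ' h h'
    have := add_mem h h'
    rwa [sub_add_sub_comm, ← LinearMap.add_comp, ← LinearMap.comp_add] at this
  · intro s θ h
    have h1 := Submodule.smul_mem _ s h
    convert h1 using 1
    refine LinearMap.ext fun f => ?_
    simp only [LinearMap.sub_apply, LinearMap.comp_apply, LinearMap.smul_apply,
      LinearMap.mulLeft_apply, smul_eq_mul]
    ring
  · intro a ha
    have h1 : dpow K a ∘ₗ LinearMap.mulLeft K (X j) - LinearMap.mulLeft K (X j) ∘ₗ dpow K a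
        = (C (a j : K) : MvPolynomial (Fin n) K) • dpow K (Function.update a j (a j - 1)) := by
      refine LinearMap.ext fun f => ?_
      simp only [LinearMap.sub_apply, LinearMap.comp_apply, LinearMap.smul_apply,
        LinearMap.mulLeft_apply, smul_eq_mul, dpow_X_mul]
      rw [add_sub_cancel_left, MvPolynomial.smul_eq_C_mul]
    rw [h1]
    by_cases h0 : a j = 0
    · rw [h0, Nat.cast_zero, C_0, zero_smul]
      exact zero_mem _
    · refine Submodule.smul_mem _ _ (Submodule.subset_span ⟨_, ?_, rfl⟩)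
      have := sum_update_pred a j h0
      omega

/-- The linear form with coefficient vector `c`. -/
noncomputable def lin (c : Fin n → K) : MvPolynomial (Fin n) K := ∑ j, C (c j) * X j

theorem comm_lin_mem {m : ℕ} {θ : MvPolynomial (Fin n) K →ₗ[K] MvPolynomial (Fin n) K}
    (hθ : θ ∈ ops K n (m + 1)) (c : Fin n → K) :
    θ ∘ₗ LinearMap.mulLeft K (lin c) - LinearMap.mulLeft K (lin c) ∘ₗ θ ∈ ops K n m := by
  have h1 : θ ∘ₗ LinearMap.mulLeft K (lin c) - LinearMap.mulLeft K (lin c) ∘ₗ θ
      = ∑ j, (C (c j) : MvPolynomial (Fin n) K) • (θ ∘ₗ LinearMap.mulLeft K (X j) - LinearMap.mulLeft K (X j) ∘ₗ θ) := by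
    refine LinearMap.ext fun f => ?_
    simp only [LinearMap.sub_apply, LinearMap.comp_apply, LinearMap.smul_apply,
      LinearMap.mulLeft_apply, smul_eq_mul, LinearMap.sum_apply, lin]
    rw [Finset.sum_mul, map_sum, Finset.sum_mul, ← Finset.sum_sub_distrib]
    refine Finset.sum_congr rfl fun j _ => ?_
    rw [mul_assoc, ← MvPolynomial.smul_eq_C_mul, map_smul, MvPolynomial.smul_eq_C_mul]
    ring
  rw [h1]
  exact sum_mem fun j _ => Submodule.smul_mem _ _ (comm_X_mem hθ j)

theorem ops_zero {θ : MvPolynomial (Fin n) K →ₗ[K] MvPolynomial (Fin n) K}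
    (hθ : θ ∈ ops K n 0) : ∃ s : MvPolynomial (Fin n) K, ∀ f, θ f = s * f := by
  refine ops_induction (p := fun θ => ∃ s : MvPolynomial (Fin n) K, ∀ f, θ f = s * f)
    ?_ ?_ ?_ ?_ hθ
  · exact ⟨0, fun f => by simp⟩
  · rintro θ θ' ⟨s, hs⟩ ⟨s', hs'⟩
    exact ⟨s + s', fun f => by rw [LinearMap.add_apply, hs, hs']; ring⟩
  · rintro r θ ⟨s, hs⟩
    exact ⟨r * s, fun f => by rw [LinearMap.smul_apply, hs, smul_eq_mul]; ring⟩
  · intro a ha
    refine ⟨1, fun f => ?_⟩
    have h0 : ∀ i, a i = 0 := by
      intro i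
      exact (Finset.sum_eq_zero_iff.mp ha) i (Finset.mem_univ i)
    rw [dpow, one_mul]
    have : ((List.finRange n).map fun i => pd K i ^ a i).prod = 1 := by
      apply List.prod_eq_one
      intro x hx
      rw [List.mem_map] at hx
      obtain ⟨i, _, rfl⟩ := hx
      rw [h0 i, pow_zero]
    rw [this]
    rfl

/-- If an operator maps `q S` into `α S` where the prime `α` does not divide `q`, it maps `S` into
`α S`. -/
theorem dvd_of_dvd_mul {α q : MvPolynomial (Fin n) K} (hα : Prime α) (hq : ¬ α ∣ q) (m : ℕ) :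
    ∀ {θ : MvPolynomial (Fin n) K →ₗ[K] MvPolynomial (Fin n) K}, θ ∈ ops K n m →
      (∀ f, α ∣ θ (q * f)) → ∀ f, α ∣ θ f := by
  induction m with
  | zero =>
    intro θ hθ h f
    obtain ⟨s, hs⟩ := ops_zero hθ
    have h1 := h 1
    rw [hs, mul_one] at h1
    rw [hs]
    exact Dvd.dvd.mul_right ((hα.dvd_or_dvd h1).resolve_right hq) f
  | succ m ih =>
    intro θ hθ h
    have hX : ∀ (j : Fin n) (f : MvPolynomial (Fin n) K), α ∣ θ (X j * f) - X j * θ f := by
      intro j f
      refine ih (comm_X_mem hθ j) ?_ f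
      intro g
      simp only [LinearMap.sub_apply, LinearMap.comp_apply, LinearMap.mulLeft_apply]
      refine dvd_sub ?_ (Dvd.dvd.mul_left (h g) _)
      rw [← mul_assoc, mul_comm (X j) q, mul_assoc]
      exact h _
    intro f
    induction f using MvPolynomial.induction_on with
    | C c =>
      have h1 : θ (monomial 0 c) = 0 := ops_monomial_of_lt hθ 0 c (by simp)
      rw [show (C c : MvPolynomial (Fin n) K) = monomial 0 c from rfl, h1]
      exact dvd_zero α
    | add f g hf hg =>
      rw [map_add]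
      exact dvd_add hf hg
    | mul_X f j hf =>
      have h1 := hX j f
      have h2 : θ (f * X j) = (θ (X j * f) - X j * θ f) + X j * θ f := by
        rw [mul_comm f]
        ring
      rw [h2]
      exact dvd_add h1 (Dvd.dvd.mul_left hf _)

/-- `D(𝒜) ⊆ D({H})`. -/
theorem dvd_of_mem_logOps {α q : MvPolynomial (Fin n) K} (hα : Prime α) (hq : ¬ α ∣ q)
    {c : Fin n → K} (hc : α = lin c) {m : ℕ}
    {θ : MvPolynomial (Fin n) K →ₗ[K] MvPolynomial (Fin n) K} (hθ : θ ∈ ops K n m)
    (h : ∀ f, α ∣ θ (α * q * f)) (f : MvPolynomial (Fin n) K) : α ∣ θ (α * f) := by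
  rcases m with _ | m
  · obtain ⟨s, hs⟩ := ops_zero hθ
    rw [hs]
    exact Dvd.dvd.mul_left (Dvd.intro _ rfl) _
  · have h1 := dvd_of_dvd_mul hα hq m (comm_lin_mem hθ c) (by
      intro g
      simp only [LinearMap.sub_apply, LinearMap.comp_apply, LinearMap.mulLeft_apply]
      refine dvd_sub ?_ ?_
      · rw [← hc, ← mul_assoc]
        exact h g
      · rw [← hc]
        exact Dvd.intro _ rfl) f
    simp only [LinearMap.sub_apply, LinearMap.comp_apply, LinearMap.mulLeft_apply] at h1
    rw [← hc] at h1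
    have h2 : θ (α * f) = (θ (α * f) - α * θ f) + α * θ f := by ring
    rw [h2]
    exact dvd_add h1 (Dvd.intro _ rfl)

end Pool.Agent.Lib.MP_5ef5ec_co
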