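import Pool.Agent.Lib.MP_5ef5ec_co.Free

/-!
# Adding a hyperplane
-/

namespace Pool.Agent.Lib.MP_5ef5ec_co

open MvPolynomial

variable {K : Type*} [Field K] {ι : Type*} [DecidableEq ι]

/-- Polarization: `g ↦ g(p + T x)`. -/
noncomputable def pol (p : Fin 3 → K) :
    MvPolynomial (Fin 3) K →ₐ[K] Polynomial (MvPolynomial (Fin 3) K) :=
  aeval fun i => Polynomial.C (C (p i)) + Polynomial.X * Polynomial.C (X i)

/-- The coefficient of `T^k` of `g_m(p + T x)`. -/
noncomputable def loc (p : Fin 3 → K) (k m : ℕ) :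
    MvPolynomial (Fin 3) K →ₗ[K] MvPolynomial (Fin 3) K :=
  ((Polynomial.lcoeff (MvPolynomial (Fin 3) K) k).restrictScalars K) ∘ₗ (pol p).toLinearMap ∘ₗ
    homogeneousComponent m

theorem loc_apply (p : Fin 3 → K) (k m : ℕ) (g : MvPolynomial (Fin 3) K) :
    loc p k m g = (pol p (homogeneousComponent m g)).coeff k := rfl

theorem loc_hc (p : Fin 3 → K) (k m : ℕ) (g : MvPolynomial (Fin 3) K) :
    loc p k m (homogeneousComponent m g) = loc p k m g := by
  rw [loc_apply, loc_apply, hc_hc]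

theorem pol_C (p : Fin 3 → K) (r : K) : pol p (C r) = Polynomial.C (C r) := by
  rw [← algebraMap_eq, AlgHom.commutes]
  rfl

theorem pol_X (p : Fin 3 → K) (i : Fin 3) : pol p (X i) =
    Polynomial.C (C (p i)) + Polynomial.X * Polynomial.C (X i) := by
  rw [pol, aeval_X]

theorem pol_lin (p c : Fin 3 → K) : pol p (lin c) =
    Polynomial.C (C (∑ j, c j * p j)) + Polynomial.X * Polynomial.C (lin c) := by
  rw [lin, Fin.sum_univ_three, Fin.sum_univ_three, map_add, map_add, map_mul, map_mul, map_mul,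
    pol_C, pol_C, pol_C, pol_X, pol_X, pol_X]
  rw [C_add, C_add, C_mul, C_mul, C_mul, Polynomial.C_add, Polynomial.C_add, Polynomial.C_mul,
    Polynomial.C_mul, Polynomial.C_mul, Polynomial.C_add, Polynomial.C_add, Polynomial.C_mul,
    Polynomial.C_mul, Polynomial.C_mul]
  ring

theorem loc_lin_mul_succ (p c : Fin 3 → K) (k m : ℕ) (g : MvPolynomial (Fin 3) K) :
    loc p (k + 1) (m + 1) (lin c * g) =
      C (∑ j, c j * p j) * loc p (k + 1) m g + lin c * loc p k m g := by
  rw [loc_apply, hc_lin_mul, map_mul, pol_lin, add_mul, Polynomial.coeff_add,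
    Polynomial.coeff_C_mul, mul_assoc, Polynomial.coeff_X_mul, Polynomial.coeff_C_mul]
  rfl

theorem loc_lin_mul_zero (p c : Fin 3 → K) (m : ℕ) (g : MvPolynomial (Fin 3) K) :
    loc p 0 (m + 1) (lin c * g) = C (∑ j, c j * p j) * loc p 0 m g := by
  rw [loc_apply, hc_lin_mul, map_mul, pol_lin, add_mul, Polynomial.coeff_add,
    Polynomial.coeff_C_mul, mul_assoc, Polynomial.coeff_X_mul_zero, add_zero]
  rfl

theorem loc_zero_lin_mul (p c : Fin 3 → K) (k : ℕ) (g : MvPolynomial (Fin 3) K) :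
    loc p k 0 (lin c * g) = 0 := by
  rw [loc_apply, hc_zero_lin_mul, map_zero, Polynomial.coeff_zero]

theorem loc_zero_eq_eval (p : Fin 3 → K) (m : ℕ) (g : MvPolynomial (Fin 3) K) :
    loc p 0 m g = C (eval p (homogeneousComponent m g)) := by
  rw [loc_apply]
  generalize homogeneousComponent m g = h
  have h1 : (Polynomial.aeval (0 : MvPolynomial (Fin 3) K)).toRingHom.comp (pol p).toRingHom
      = (C : K →+* MvPolynomial (Fin 3) K).comp (eval p) := by
    apply MvPolynomial.ringHom_ext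
    · intro r
      simp [pol]
    · intro i
      simp [pol]
  have h2 := congrArg (fun f : MvPolynomial (Fin 3) K →+* MvPolynomial (Fin 3) K => f h) h1
  have h3 : Polynomial.eval 0 (pol p h) = C (eval p h) := by
    simpa using h2
  rw [← h3, Polynomial.coeff_zero_eq_eval_zero]

variable (c : ι → Fin 3 → K)

/-- The product of the forms not vanishing at `p`. -/
noncomputable def qp (t : Finset ι) (p : Fin 3 → K) : MvPolynomial (Fin 3) K := by
  classical
  exact ∏ i ∈ t.filter (fun i => ∑ j, c i j * p j ≠ 0), lin (c i)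

/-- The standard elements of `MM`. -/
def std (t : Finset ι) (m : ℕ) :
    Set (MvPolynomial (Fin 3) K →ₗ[K] MvPolynomial (Fin 3) K) :=
  {φ | (∃ l : MvPolynomial (Fin 3) K →ₗ[K] K, (∀ g, l (homogeneousComponent m g) = l g) ∧
      φ = l.smulRight (∏ i ∈ t, lin (c i))) ∨
    (∃ j ∈ t, ∃ l : MvPolynomial (Fin 3) K →ₗ[K] K, (∀ g, l (homogeneousComponent m g) = l g) ∧
      (∀ g, l (lin (c j) * g) = 0) ∧ φ = l.smulRight (∏ i ∈ t.erase j, lin (c i))) ∨
    (∃ (p : Fin 3 → K) (k : ℕ), φ = qp c t p • loc p k m)}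

/-- The submodule spanned by the standard elements. -/
noncomputable def GG (t : Finset ι) (m : ℕ) : Submodule (MvPolynomial (Fin 3) K)
    (MvPolynomial (Fin 3) K →ₗ[K] MvPolynomial (Fin 3) K) :=
  Submodule.span (MvPolynomial (Fin 3) K) (std c t m)

variable {c}

omit [DecidableEq ι] in
theorem dvd_qp {t : Finset ι} {p : Fin 3 → K} {i : ι} (hi : i ∈ t)
    (h : ∑ j, c i j * p j ≠ 0) : lin (c i) ∣ qp c t p := by
  classical
  refine Finset.dvd_prod_of_mem (fun i => lin (c i)) ?_
  rw [Finset.mem_filter]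
  exact ⟨hi, h⟩

theorem GG_le_MM (t : Finset ι) (m : ℕ) : GG c t m ≤ MM (fun i => lin (c i)) t m := by
  refine Submodule.span_le.mpr ?_
  rintro φ (⟨l, h1, rfl⟩ | ⟨j, hj, l, h1, h2, rfl⟩ | ⟨p, k, rfl⟩)
  · refine ⟨fun g => ?_, fun i hi g => ?_⟩
    · rw [LinearMap.smulRight_apply, LinearMap.smulRight_apply, h1]
    · rw [LinearMap.smulRight_apply, smul_eq_C_mul]
      exact Dvd.dvd.mul_left (Finset.dvd_prod_of_mem (fun i => lin (c i)) hi) _
  · refine ⟨fun g => ?_, fun i hi g => ?_⟩
    · rw [LinearMap.smulRight_apply, LinearMap.smulRight_apply, h1]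
    · rw [LinearMap.smulRight_apply]
      by_cases hij : i = j
      · subst hij
        rw [h2, zero_smul]
        exact dvd_zero _
      · rw [smul_eq_C_mul]
        exact Dvd.dvd.mul_left (Finset.dvd_prod_of_mem (fun i => lin (c i))
          (Finset.mem_erase.mpr ⟨hij, hi⟩)) _
  · refine ⟨fun g => ?_, fun i hi g => ?_⟩
    · rw [LinearMap.smul_apply, LinearMap.smul_apply, loc_hc]
    · rw [LinearMap.smul_apply, smul_eq_mul]
      by_cases h : ∑ j, c i j * p j = 0
      · refine Dvd.dvd.mul_left ?_ _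
        rcases m with _ | m
        · rw [loc_zero_lin_mul]
          exact dvd_zero _
        · rcases k with _ | k
          · rw [loc_lin_mul_zero, h, C_0, zero_mul]
            exact dvd_zero _
          · rw [loc_lin_mul_succ, h, C_0, zero_mul, zero_add]
            exact Dvd.intro _ rfl
      · exact Dvd.dvd.mul_right (dvd_qp hi h) _

end Pool.Agent.Lib.MP_5ef5ec_co
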